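import Pool.Agent.Q61.JS.Stm

namespace Pool.Agent.Q61.JS

open MeasureTheory Filter Topology Set Metric
open scoped ENNReal NNReal

lemma ratio_tendsto (t0 K : ℝ) (ht : 0 < t0) (hK : 0 < K) :
    Tendsto (fun ε : ℝ => Real.log (t0 / (K * ε)) / |Real.log ε|) (𝓝[>] 0) (𝓝 1) := by
  have h1 : Tendsto (fun ε : ℝ => 1 + Real.log (t0 / K) * (-Real.log ε)⁻¹) (𝓝[>] 0) (𝓝 (1 + Real.log (t0 / K) * 0)) := by
    refine tendsto_const_nhds.add (tendsto_const_nhds.mul ?_)
    apply tendsto_inv_atTop_zero.comp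
    exact tendsto_neg_atBot_atTop.comp Real.tendsto_log_nhdsGT_zero
  rw [mul_zero, add_zero] at h1
  refine h1.congr' ?_
  filter_upwards [Ioo_mem_nhdsGT (one_pos : (0:ℝ) < 1)] with ε hε
  have hl : Real.log ε < 0 := Real.log_neg hε.1 hε.2
  have h2 : Real.log (t0 / (K * ε)) = Real.log (t0 / K) - Real.log ε := by
    rw [← div_div, Real.log_div (by positivity) hε.1.ne']
  rw [h2, abs_of_neg hl, div_neg, sub_div, div_self hl.ne, inv_neg]
  ring

theorem logl (hMM : S_MM) (hG : S_GAG) (hS : S_SHELL) : S_LOG := by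
  intro n d u η q t0 B e s K I A ν hq hu hη ht0 hK hν hA hB he hs hs1 hlow hmol
  set c : ℝ := (1 - s) ^ q * |∫ z, η z| ^ q with hc
  have hc0 : 0 ≤ c := mul_nonneg (Real.rpow_nonneg (by linarith) _)
    (Real.rpow_nonneg (abs_nonneg _) _)
  obtain ⟨-, -, hk1, hs1', -⟩ := hS n (EuclideanSpace.single 0 1) 1 2 (by simp) one_pos (by norm_num)
  set X : ℝ≥0∞ := ENNReal.ofReal c * (kappa n * ENNReal.ofReal (∑ i, A i)) with hX
  set Y : ℝ≥0∞ := sig n * ENNReal.ofReal (e + c * B) with hY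
  have hXt : X ≠ ⊤ := ENNReal.mul_ne_top ENNReal.ofReal_ne_top
    (ENNReal.mul_ne_top hk1 ENNReal.ofReal_ne_top)
  have hYt : Y ≠ ⊤ := ENNReal.mul_ne_top hs1' ENNReal.ofReal_ne_top
  have hSA : 0 ≤ ∑ i, A i := Finset.sum_nonneg fun i _ => hA i
  -- the main inequality
  have key : ∀ ε : ℝ, 0 < ε → K * ε < t0 →
      X * ENNReal.ofReal (Real.log (t0 / (K * ε))) ≤ gag q (moll η u ε) +
        Y * ENNReal.ofReal (Real.log (t0 / (K * ε))) := by
    intro ε hε hKε
    have hm := hMM _ _ u η ε hu hη hε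
    set v := moll η u ε with hv
    set SH : Set (E (n + 1)) := {h | K * ε < ‖h‖ ∧ ‖h‖ < t0} with hSH
    have hSHm : MeasurableSet SH :=
      (measurableSet_lt measurable_const measurable_norm).inter
        (measurableSet_lt measurable_norm measurable_const)
    have hpt : ∀ h ∈ SH, ENNReal.ofReal c * (∑ i, ENNReal.ofReal (A i) *
        (ENNReal.ofReal |inner ℝ h (ν i)| / ‖h‖ₑ ^ (n + 2))) ≤
        dq q v h / ‖h‖ₑ ^ (n + 2) + ENNReal.ofReal (e + c * B) * (‖h‖ₑ / ‖h‖ₑ ^ (n + 2)) := by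
      intro h hh
      have hh0 : 0 < ‖h‖ := lt_trans (by positivity) hh.1
      have e1 := hlow h hh0 hh.2
      have e2 := hmol ε h hε hh.1.le
      have e3 : ENNReal.ofReal (∑ i, A i * |inner ℝ h (ν i)|) ≤ dq q u h + ENNReal.ofReal B * ‖h‖ₑ := by
        calc ENNReal.ofReal (∑ i, A i * |inner ℝ h (ν i)|)
            = ENNReal.ofReal ((∑ i, A i * |inner ℝ h (ν i)| - B * ‖h‖) + B * ‖h‖) := by
              congr 1; ring
          _ ≤ ENNReal.ofReal (∑ i, A i * |inner ℝ h (ν i)| - B * ‖h‖) + ENNReal.ofReal (B * ‖h‖) :=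
              ENNReal.ofReal_add_le
          _ ≤ dq q u h + ENNReal.ofReal B * ‖h‖ₑ := by
              rw [ENNReal.ofReal_mul hB, ofReal_norm_eq_enorm]
              gcongr
      have e4 : ENNReal.ofReal c * ENNReal.ofReal (∑ i, A i * |inner ℝ h (ν i)|) ≤
          dq q v h + ENNReal.ofReal (e + c * B) * ‖h‖ₑ := by
        calc _ ≤ ENNReal.ofReal c * (dq q u h + ENNReal.ofReal B * ‖h‖ₑ) := by gcongr
          _ = ENNReal.ofReal c * dq q u h + ENNReal.ofReal c * ENNReal.ofReal B * ‖h‖ₑ := by ring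
          _ ≤ (dq q v h + ENNReal.ofReal e * ‖h‖ₑ) + ENNReal.ofReal c * ENNReal.ofReal B * ‖h‖ₑ := by
              gcongr
          _ = _ := by
              rw [ENNReal.ofReal_add he (by positivity), ENNReal.ofReal_mul hc0]; ring
      have e5 : ENNReal.ofReal c * (∑ i, ENNReal.ofReal (A i) *
        (ENNReal.ofReal |inner ℝ h (ν i)| / ‖h‖ₑ ^ (n + 2))) =
          (ENNReal.ofReal c * ENNReal.ofReal (∑ i, A i * |inner ℝ h (ν i)|)) / ‖h‖ₑ ^ (n + 2) := by
        rw [ENNReal.ofReal_sum_of_nonneg (fun i _ => mul_nonneg (hA i) (abs_nonneg _)),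
          mul_div_assoc]
        congr 1
        simp only [div_eq_mul_inv]
        rw [Finset.sum_mul]
        refine Finset.sum_congr rfl fun i _ => ?_
        rw [ENNReal.ofReal_mul (hA i)]
        ring
      rw [e5]
      calc _ ≤ (dq q v h + ENNReal.ofReal (e + c * B) * ‖h‖ₑ) / ‖h‖ₑ ^ (n + 2) := by gcongr
        _ = _ := by rw [ENNReal.add_div, mul_div_assoc]
    have hsh : ∀ i, (∫⁻ h in SH, ENNReal.ofReal |inner ℝ h (ν i)| / ‖h‖ₑ ^ (n + 2)) =
        kappa n * ENNReal.ofReal (Real.log (t0 / (K * ε))) := fun i =>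
      (hS n (ν i) (K * ε) t0 (hν i) (by positivity) hKε).1
    have hsh2 : (∫⁻ h in SH, ‖h‖ₑ / ‖h‖ₑ ^ (n + 2)) =
        sig n * ENNReal.ofReal (Real.log (t0 / (K * ε))) :=
      (hS n (EuclideanSpace.single 0 1) (K * ε) t0 (by simp) (by positivity) hKε).2.1
    have hmeas : ∀ i, Measurable fun h : E (n + 1) => ENNReal.ofReal |inner ℝ h (ν i)| / ‖h‖ₑ ^ (n + 2) := by
      intro i
      refine Measurable.div ?_ (measurable_enorm.pow_const _)
      refine ENNReal.measurable_ofReal.comp ?_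
      have : Continuous fun h : E (n + 1) => |(inner ℝ h (ν i) : ℝ)| := by fun_prop
      exact this.measurable
    have hmeas2 : Measurable fun h : E (n + 1) => ‖h‖ₑ / ‖h‖ₑ ^ (n + 2) :=
      measurable_enorm.div (measurable_enorm.pow_const _)
    calc X * ENNReal.ofReal (Real.log (t0 / (K * ε)))
        = ∫⁻ h in SH, ENNReal.ofReal c * (∑ i, ENNReal.ofReal (A i) *
            (ENNReal.ofReal |inner ℝ h (ν i)| / ‖h‖ₑ ^ (n + 2))) := by
          rw [lintegral_const_mul _ (Finset.measurable_sum _ fun i _ => (hmeas i).const_mul _),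
            lintegral_finset_sum _ fun i _ => (hmeas i).const_mul _]
          have : ∀ i, (∫⁻ h in SH, ENNReal.ofReal (A i) *
            (ENNReal.ofReal |inner ℝ h (ν i)| / ‖h‖ₑ ^ (n + 2))) = ENNReal.ofReal (A i) *
              (kappa n * ENNReal.ofReal (Real.log (t0 / (K * ε)))) := by
            intro i
            rw [lintegral_const_mul _ (hmeas i), hsh i]
          rw [Finset.sum_congr rfl fun i _ => this i, ← Finset.sum_mul, hX,
            ENNReal.ofReal_sum_of_nonneg fun i _ => hA i]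
          ring
      _ ≤ ∫⁻ h in SH, (dq q v h / ‖h‖ₑ ^ (n + 2) +
            ENNReal.ofReal (e + c * B) * (‖h‖ₑ / ‖h‖ₑ ^ (n + 2))) :=
          setLIntegral_mono' hSHm hpt
      _ = (∫⁻ h in SH, dq q v h / ‖h‖ₑ ^ (n + 2)) +
            ENNReal.ofReal (e + c * B) * (sig n * ENNReal.ofReal (Real.log (t0 / (K * ε)))) := by
          rw [lintegral_add_right _ (hmeas2.const_mul _), lintegral_const_mul _ hmeas2, hsh2]
      _ ≤ gag q v + Y * ENNReal.ofReal (Real.log (t0 / (K * ε))) := by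
          rw [hG n d q v hq hm]
          refine add_le_add (setLIntegral_le_lintegral _ _) (le_of_eq ?_)
          rw [hY]; ring
  -- the limit
  have hr := ratio_tendsto t0 K ht0 hK
  have hr' : Tendsto (fun ε : ℝ => ENNReal.ofReal (Real.log (t0 / (K * ε)) / |Real.log ε|))
      (𝓝[>] 0) (𝓝 1) := by
    have := ENNReal.tendsto_ofReal hr
    rwa [ENNReal.ofReal_one] at this
  have hXr : Tendsto (fun ε : ℝ => X * ENNReal.ofReal (Real.log (t0 / (K * ε)) / |Real.log ε|))
      (𝓝[>] 0) (𝓝 X) := by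
    have := ENNReal.Tendsto.const_mul hr' (Or.inr hXt)
    rwa [mul_one] at this
  have hYr : Tendsto (fun ε : ℝ => Y * ENNReal.ofReal (Real.log (t0 / (K * ε)) / |Real.log ε|))
      (𝓝[>] 0) (𝓝 Y) := by
    have := ENNReal.Tendsto.const_mul hr' (Or.inr hYt)
    rwa [mul_one] at this
  refine ENNReal.le_of_forall_pos_le_add fun θ hθ _ => ?_
  have hθ' : (0 : ℝ≥0∞) < θ / 2 := by
    exact ENNReal.div_pos (by exact_mod_cast hθ.ne') (by norm_num)
  have ev : ∀ᶠ ε : ℝ in 𝓝[>] 0, X - (Y + θ) ≤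
      gag q (moll η u ε) / ENNReal.ofReal |Real.log ε| := by
    have a1 : ∀ᶠ ε : ℝ in 𝓝[>] 0, X ≤ X * ENNReal.ofReal (Real.log (t0 / (K * ε)) / |Real.log ε|) + θ / 2 := by
      rcases eq_or_ne X 0 with h0 | h0
      · filter_upwards with ε; rw [h0]; exact zero_le
      · have : X - θ / 2 < X := ENNReal.sub_lt_self hXt h0 hθ'.ne'
        filter_upwards [hXr.eventually (lt_mem_nhds this)] with ε hε
        exact tsub_le_iff_right.1 hε.le
    have a2 : ∀ᶠ ε : ℝ in 𝓝[>] 0, Y * ENNReal.ofReal (Real.log (t0 / (K * ε)) / |Real.log ε|) ≤ Y + θ / 2 := by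
      have : Y < Y + θ / 2 := ENNReal.lt_add_right hYt hθ'.ne'
      filter_upwards [hYr.eventually (gt_mem_nhds this)] with ε hε using hε.le
    have a3 : ∀ᶠ ε : ℝ in 𝓝[>] 0, ε ∈ Ioo (0:ℝ) (min 1 (t0 / K)) :=
      Ioo_mem_nhdsGT (lt_min one_pos (by positivity))
    filter_upwards [a1, a2, a3] with ε h1 h2 h3
    have hε1 : ε < 1 := h3.2.trans_le (min_le_left _ _)
    have hε2 : K * ε < t0 := by
      have := h3.2.trans_le (min_le_right _ _)
      rw [lt_div_iff₀ hK] at this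
      linarith
    have hlog : 0 < |Real.log ε| := abs_pos.2 (Real.log_neg h3.1 hε1).ne
    have h4 := key ε h3.1 hε2
    have h5 : X * ENNReal.ofReal (Real.log (t0 / (K * ε)) / |Real.log ε|) ≤
        gag q (moll η u ε) / ENNReal.ofReal |Real.log ε| +
          Y * ENNReal.ofReal (Real.log (t0 / (K * ε)) / |Real.log ε|) := by
      rw [ENNReal.ofReal_div_of_pos hlog, ← mul_div_assoc, ← mul_div_assoc, ← ENNReal.add_div]
      gcongr
    rw [tsub_le_iff_right]
    calc X ≤ X * ENNReal.ofReal (Real.log (t0 / (K * ε)) / |Real.log ε|) + θ / 2 := h1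
      _ ≤ (gag q (moll η u ε) / ENNReal.ofReal |Real.log ε| + (Y + θ / 2)) + θ / 2 := by
          gcongr
          exact h5.trans (by gcongr)
      _ = gag q (moll η u ε) / ENNReal.ofReal |Real.log ε| + (Y + θ) := by
          rw [add_assoc, add_assoc, ENNReal.add_halves]
  have h6 : X - (Y + θ) ≤ liminf (fun ε : ℝ => gag q (moll η u ε) / ENNReal.ofReal |Real.log ε|)
      (𝓝[>] 0) := le_liminf_of_le (by isBoundedDefault) ev
  rw [tsub_le_iff_right, ← add_assoc] at h6
  exact h6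

end Pool.Agent.Q61.JS
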