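import Pool.Agent.Q61.JS.Stm

namespace Pool.Agent.Q61.JS

open MeasureTheory Filter Topology Set Metric
open scoped ENNReal NNReal

lemma om_pos (n : ℕ) : 0 < om n := by
  unfold om
  refine ENNReal.toReal_pos ?_ ?_
  · exact (measure_ball_pos _ _ one_pos).ne'
  · exact measure_ball_lt_top.ne

/-- choice of the parameters -/
lemma params (n : ℕ) (q o1 o0 θ β : ℝ) (hq : 1 ≤ q) (h1 : 0 < o1) (h0 : 0 < o0) (hθ : 0 < θ)
    (hβ : 0 < β) :
    ∃ τ R σ l δ : ℝ, 0 < τ ∧ τ < 1 ∧ 3 ≤ R ∧ 0 ≤ σ ∧ 0 < l ∧ 1 ≤ l ^ 2 * (1 - σ ^ 2) ∧ 0 < δ ∧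
      2 ^ (2 * n + 3) * (2 ^ (n + 1) * δ) ≤ o1 * σ ^ (n + 1) ∧
      (1 + 4 * (2 ^ (n + 1) * δ) / o1) ^ q ≤ 1 + θ ∧ 1 ≤ (1 + θ) * (1 - τ) ^ q ∧
      l ^ n ≤ 1 + θ ∧ R ^ n ≤ (1 + θ) * (R - 2) ^ n ∧
      4 * (2 ^ (n + 1) * δ) / τ * R ^ (n + 1) ≤ β * (o0 * (R - 2) ^ n) := by
  -- τ
  have hτ : ∀ᶠ τ in 𝓝[>] (0:ℝ), 1 ≤ (1 + θ) * (1 - τ) ^ q := by
    have hc : Tendsto (fun τ : ℝ => (1 + θ) * (1 - τ) ^ q) (𝓝[>] 0) (𝓝 ((1 + θ) * (1 - 0) ^ q)) := by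
      apply Tendsto.mono_left _ nhdsWithin_le_nhds
      have : ContinuousAt (fun τ : ℝ => (1 + θ) * (1 - τ) ^ q) 0 := by
        refine continuousAt_const.mul ?_
        exact (continuousAt_const.sub continuousAt_id).rpow_const (Or.inr (by linarith))
      exact this
    have : (1:ℝ) < (1 + θ) * (1 - 0) ^ q := by simp; linarith
    filter_upwards [hc.eventually (lt_mem_nhds this)] with x hx using hx.le
  obtain ⟨τ, hτ1, hτ2, hτ3⟩ : ∃ τ : ℝ, 0 < τ ∧ τ < 1 ∧ 1 ≤ (1 + θ) * (1 - τ) ^ q := by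
    have h3 : ∀ᶠ τ in 𝓝[>] (0:ℝ), τ ∈ Ioo (0:ℝ) 1 := Ioo_mem_nhdsGT one_pos
    obtain ⟨τ, h, h'⟩ := (hτ.and h3).exists
    exact ⟨τ, h'.1, h'.2, h⟩
  -- R
  obtain ⟨R, hR1, hR2⟩ : ∃ R : ℝ, 3 ≤ R ∧ R ^ n ≤ (1 + θ) * (R - 2) ^ n := by
    have hc : Tendsto (fun R : ℝ => ((1 - 2 / R)) ^ n) atTop (𝓝 ((1 - 0) ^ n)) := by
      apply Tendsto.pow
      apply Tendsto.sub tendsto_const_nhds
      exact tendsto_const_nhds.div_atTop tendsto_id
    have h4 : 1 / (1 + θ) < ((1:ℝ) - 0) ^ n := by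
      simp
      exact inv_lt_one_of_one_lt₀ (by linarith)
    obtain ⟨R, h, h'⟩ := ((hc.eventually (lt_mem_nhds h4)).and (eventually_ge_atTop 3)).exists
    refine ⟨R, h', ?_⟩
    have hR0 : 0 < R := by linarith
    have h5 : (1 - 2 / R) ^ n = (R - 2) ^ n / R ^ n := by
      rw [← div_pow]; congr 1; field_simp
    rw [h5, div_lt_div_iff₀ (by linarith) (by positivity)] at h
    linarith
  -- σ, l
  obtain ⟨σ, l, hσ0, hl0, hσl, hln⟩ : ∃ σ l : ℝ, 0 < σ ∧ 0 < l ∧ 1 ≤ l ^ 2 * (1 - σ ^ 2) ∧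
      l ^ n ≤ 1 + θ := by
    have hc : Tendsto (fun l : ℝ => l ^ n) (𝓝[>] 1) (𝓝 (1 ^ n)) :=
      Tendsto.mono_left ((continuous_pow n).tendsto 1) nhdsWithin_le_nhds
    have h4 : (1:ℝ) ^ n < 1 + θ := by simp; linarith
    obtain ⟨l, h, h'⟩ := ((hc.eventually (gt_mem_nhds h4)).and self_mem_nhdsWithin).exists
    have hl : 1 < l := h'
    have hl2 : 1 < l ^ 2 := by nlinarith
    refine ⟨Real.sqrt (1 - 1 / l ^ 2), l, ?_, by linarith, ?_, h.le⟩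
    · apply Real.sqrt_pos.2
      have : 1 / l ^ 2 < 1 := by rw [div_lt_one (by positivity)]; exact hl2
      linarith
    · rw [Real.sq_sqrt]
      · have : l ^ 2 ≠ 0 := by positivity
        have e : l ^ 2 * (1 - (1 - 1 / l ^ 2)) = 1 := by field_simp; ring
        rw [e]
      · have : 1 / l ^ 2 < 1 := by rw [div_lt_one (by positivity)]; exact hl2
        linarith
  -- δ
  have e1 : ∀ᶠ δ in 𝓝[>] (0:ℝ), 2 ^ (2 * n + 3) * (2 ^ (n + 1) * δ) ≤ o1 * σ ^ (n + 1) := by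
    have hc : Tendsto (fun δ : ℝ => 2 ^ (2 * n + 3) * (2 ^ (n + 1) * δ)) (𝓝[>] 0)
        (𝓝 (2 ^ (2 * n + 3) * (2 ^ (n + 1) * 0))) := by
      apply Tendsto.mono_left _ nhdsWithin_le_nhds
      exact (continuous_const.mul (continuous_const.mul continuous_id)).tendsto 0
    have h4 : (2:ℝ) ^ (2 * n + 3) * (2 ^ (n + 1) * 0) < o1 * σ ^ (n + 1) := by
      simp; positivity
    filter_upwards [hc.eventually (gt_mem_nhds h4)] with x hx using hx.le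
  have e2 : ∀ᶠ δ in 𝓝[>] (0:ℝ), (1 + 4 * (2 ^ (n + 1) * δ) / o1) ^ q ≤ 1 + θ := by
    have hc : Tendsto (fun δ : ℝ => (1 + 4 * (2 ^ (n + 1) * δ) / o1) ^ q) (𝓝[>] 0)
        (𝓝 ((1 + 4 * (2 ^ (n + 1) * 0) / o1) ^ q)) := by
      apply Tendsto.mono_left _ nhdsWithin_le_nhds
      have : ContinuousAt (fun δ : ℝ => (1 + 4 * (2 ^ (n + 1) * δ) / o1) ^ q) 0 := by
        refine ContinuousAt.rpow_const ?_ (Or.inr (by linarith))
        fun_prop
      exact this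
    have h4 : (1 + 4 * (2 ^ (n + 1) * 0) / o1) ^ q < 1 + θ := by simp; linarith
    filter_upwards [hc.eventually (gt_mem_nhds h4)] with x hx using hx.le
  have e3 : ∀ᶠ δ in 𝓝[>] (0:ℝ),
      4 * (2 ^ (n + 1) * δ) / τ * R ^ (n + 1) ≤ β * (o0 * (R - 2) ^ n) := by
    have hc : Tendsto (fun δ : ℝ => 4 * (2 ^ (n + 1) * δ) / τ * R ^ (n + 1)) (𝓝[>] 0)
        (𝓝 (4 * (2 ^ (n + 1) * 0) / τ * R ^ (n + 1))) := by
      apply Tendsto.mono_left _ nhdsWithin_le_nhds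
      have : Continuous (fun δ : ℝ => 4 * (2 ^ (n + 1) * δ) / τ * R ^ (n + 1)) := by fun_prop
      exact this.tendsto 0
    have hR3 : 0 < R - 2 := by linarith
    have h4 : 4 * (2 ^ (n + 1) * 0) / τ * R ^ (n + 1) < β * (o0 * (R - 2) ^ n) := by
      simp; positivity
    filter_upwards [hc.eventually (gt_mem_nhds h4)] with x hx using hx.le
  obtain ⟨δ, ⟨⟨⟨h1', h2'⟩, h3'⟩, h4'⟩⟩ := (((e1.and e2).and e3).and self_mem_nhdsWithin).exists
  exact ⟨τ, R, σ, l, δ, hτ1, hτ2, hR1, hσ0.le, hl0, hσl, h4', h1', h2', hτ3, hln, hR2, h3'⟩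

lemma alg1 (n : ℕ) (S P o l R t x τ δ' : ℝ) (ho : o ≠ 0) (hl : l ≠ 0) (hR : R ≠ 0) :
    S * (P * (x * (o * ((R - 2) * t) ^ n) - 4 * δ' / τ * (R * t) ^ (n + 1))) =
      (l ^ n * o * (R * t) ^ n) * (S * P * ((R - 2) ^ n / (l ^ n * R ^ n)) * x) -
      (l ^ n * o * (R * t) ^ n) * (S * P * (4 * δ' / τ * R / (l ^ n * o)) * t) := by
  have h1 : l ^ n ≠ 0 := pow_ne_zero _ hl
  have h2 : R ^ n ≠ 0 := pow_ne_zero _ hR
  rw [mul_pow, mul_pow, mul_pow, pow_succ, pow_succ]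
  have e1 : l ^ n * o * (R ^ n * t ^ n) * (S * P * ((R - 2) ^ n / (l ^ n * R ^ n)) * x) =
      S * P * x * o * (R - 2) ^ n * t ^ n := by
    field_simp
  have e2 : l ^ n * o * (R ^ n * t ^ n) * (S * P * (4 * δ' / τ * R / (l ^ n * o)) * t) =
      S * P * (4 * δ' / τ) * R * R ^ n * t ^ n * t := by
    have : (4 * δ' / τ * R / (l ^ n * o)) = (4 * δ' / τ) * R * (l ^ n * o)⁻¹ := by
      rw [div_eq_mul_inv]
    rw [this]
    have h3 : (l ^ n * o) * (l ^ n * o)⁻¹ = 1 := mul_inv_cancel₀ (mul_ne_zero h1 ho)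
    calc _ = ((l ^ n * o) * (l ^ n * o)⁻¹) * (S * P * (4 * δ' / τ) * R * R ^ n * t ^ n * t) := by ring
      _ = _ := by rw [h3, one_mul]
  rw [e1, e2]
  ring

lemma alg2 (n : ℕ) (o l R τ δ' : ℝ) (hR : R ≠ 0) :
    4 * δ' / τ * R / (l ^ n * o) = 4 * δ' / τ * R ^ (n + 1) / (l ^ n * o * R ^ n) := by
  have h2 : R ^ n ≠ 0 := pow_ne_zero _ hR
  rw [pow_succ, div_eq_mul_inv, div_eq_mul_inv _ (l ^ n * o * R ^ n), mul_inv (l ^ n * o)]
  have h3 : R ^ n * (R ^ n)⁻¹ = 1 := mul_inv_cancel₀ h2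
  calc _ = 4 * δ' / τ * R * (l ^ n * o)⁻¹ * (R ^ n * (R ^ n)⁻¹) := by rw [h3, mul_one]
    _ = _ := by ring

/-- one step: real form -/
lemma step (hSel : S_SEL) (hLoc : S_LOC) (hMol : S_MOL) (hLog : S_LOG)
    {n d : ℕ} {q : ℝ} {u : E (n + 1) → E d} {η : E (n + 1) → ℝ} {C : ℝ≥0}
    (hq : 1 ≤ q) (hu : MemLp u (ENNReal.ofReal q) volume)
    (hC : ∀ h, h ≠ 0 → dq q u h ≤ C * ‖h‖ₑ) (hη : Integrable η volume)
    {m k' s' L : ℝ} (hm : 0 ≤ m)
    (hM : ENNReal.ofReal m < ∫⁻ x in jumpSet u, jumpSize u x ^ q ∂surf n)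
    (hk : 0 < k') (hk' : kappa n = ENNReal.ofReal k') (hs : 0 ≤ s') (hs' : sig n = ENNReal.ofReal s')
    (hL0 : 0 ≤ L)
    (hL : liminf (fun ε : ℝ => gag q (moll η u ε) / ENNReal.ofReal |Real.log ε|) (𝓝[>] 0) =
      ENNReal.ofReal L) {θ : ℝ} (hθ : 0 < θ) (hθ1 : θ < 1) :
    (1 - θ) ^ q * |∫ z, η z| ^ q * (k' * (1 - θ)) * m ≤ (1 + θ) ^ 4 * (L + s' * θ) := by
  set I : ℝ := |∫ z, η z| with hI
  have hI0 : 0 ≤ I := abs_nonneg _
  obtain ⟨τ, R, σ, l, δ, hτ0, hτ1, hR, hσ, hl, hσl, hδ, p1, p2, p3, p4, p5, p6⟩ :=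
    params n q (om (n + 1)) (om n) θ (θ * k' / (s' + 1)) hq (om_pos _) (om_pos _) hθ (by positivity)
  obtain ⟨N, K, a, b, ν, ρ, hρ, hab, hν, hK, hKd, hnear, hfin, hsum⟩ :=
    hSel n d u q δ σ l (ENNReal.ofReal m) hq hu.1 hδ hσ hl hσl p1 hM
  obtain ⟨t0, ht0, hloc⟩ := hLoc n d u N K a b ν q ρ (2 ^ (n + 1) * δ) τ R σ l hq hu.1 hab hν hρ
    (by positivity) hτ0 hτ1 hR hσ hl hσl p1 hK hKd hnear hfin
  obtain ⟨Kc, hKc, hmol⟩ := hMol n d u η q θ θ C hq hu hC hη hθ hθ1 hθ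
  set S : Fin N → ℝ := fun i => (surf n (K i)).toReal with hS
  set P : Fin N → ℝ := fun i => ((1 - τ) * ‖a i - b i‖) ^ q with hP
  set δ' : ℝ := 2 ^ (n + 1) * δ with hδ'
  have hδ'0 : 0 < δ' := by positivity
  have hR2 : 0 < R - 2 := by linarith
  have hR0 : 0 < R := by linarith
  have ho := om_pos n
  have hP0 : ∀ i, 0 ≤ P i := fun i => Real.rpow_nonneg (by
    have : 0 ≤ 1 - τ := by linarith
    positivity) _
  have hS0 : ∀ i, 0 ≤ S i := fun i => ENNReal.toReal_nonneg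
  set A : Fin N → ℝ := fun i => S i * P i * ((R - 2) ^ n / (l ^ n * R ^ n)) with hA
  set B : ℝ := (∑ i, S i * P i) * (4 * δ' / τ * R / (l ^ n * om n)) with hB
  have hA0 : ∀ i, 0 ≤ A i := fun i => by
    have := hP0 i; have := hS0 i
    positivity
  have hB0 : 0 ≤ B := by
    have : 0 ≤ ∑ i, S i * P i := Finset.sum_nonneg fun i _ => mul_nonneg (hS0 i) (hP0 i)
    positivity
  have hlog := hLog n d u η q t0 B θ θ Kc N A ν hq hu.1 hη ht0 hKc hν hA0 hB0 hθ.le hθ hθ1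
    (by
      intro h h1 h2
      have h3 := hloc h h1 h2
      set t : ℝ := ‖h‖ with ht
      have hD : 0 < l ^ n * om n * (R * t) ^ n := by positivity
      have e : ∑ i, S i * (P i * (|inner ℝ h (ν i)| * (om n * ((R - 2) * t) ^ n) -
          4 * δ' / τ * (R * t) ^ (n + 1))) =
          (l ^ n * om n * (R * t) ^ n) * (∑ i, A i * |inner ℝ h (ν i)| - B * t) := by
        rw [mul_sub, Finset.mul_sum, hB, Finset.sum_mul, Finset.sum_mul, Finset.mul_sum,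
          ← Finset.sum_sub_distrib]
        refine Finset.sum_congr rfl fun i _ => ?_
        exact alg1 n (S i) (P i) (om n) l R t _ τ δ' ho.ne' hl.ne' hR0.ne'
      rw [e, ENNReal.ofReal_mul hD.le] at h3
      exact (ENNReal.mul_le_mul_iff_right (ENNReal.ofReal_pos.2 hD).ne' ENNReal.ofReal_ne_top).1 h3)
    hmol
  rw [hk', hs', hL] at hlog
  have hSA : 0 ≤ ∑ i, A i := Finset.sum_nonneg fun i _ => hA0 i
  have hc0 : 0 ≤ (1 - θ) ^ q * I ^ q := mul_nonneg (Real.rpow_nonneg (by linarith) _)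
    (Real.rpow_nonneg hI0 _)
  rw [← ENNReal.ofReal_mul hk.le, ← ENNReal.ofReal_mul hc0, ← ENNReal.ofReal_mul hs,
    ← ENNReal.ofReal_add hL0 (by positivity),
    ENNReal.ofReal_le_ofReal_iff (by positivity)] at hlog
  -- B ≤ β ∑ A
  have hBA : B ≤ θ * k' / (s' + 1) * ∑ i, A i := by
    have e : ∑ i, A i = (∑ i, S i * P i) * ((R - 2) ^ n / (l ^ n * R ^ n)) := by
      rw [Finset.sum_mul]
    rw [e, hB, mul_left_comm (θ * k' / (s' + 1))]
    refine mul_le_mul_of_nonneg_left ?_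
      (Finset.sum_nonneg fun i _ => mul_nonneg (hS0 i) (hP0 i))
    have h6 : θ * k' / (s' + 1) * ((R - 2) ^ n / (l ^ n * R ^ n)) =
        (θ * k' / (s' + 1) * (om n * (R - 2) ^ n)) / (l ^ n * om n * R ^ n) := by
      rw [← mul_div_assoc]
      rw [div_eq_div_iff (by positivity) (by positivity)]
      ring
    have h7 : 4 * δ' / τ * R / (l ^ n * om n) = 4 * δ' / τ * R ^ (n + 1) / (l ^ n * om n * R ^ n) :=
      alg2 n _ _ _ _ _ hR0.ne'
    rw [h6, h7]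
    gcongr
  have hmA : m ≤ (1 + θ) ^ 4 * ∑ i, A i := by
    have h8 : m ≤ ∑ i, ((1 + 4 * δ' / om (n + 1)) * ‖a i - b i‖) ^ q * S i := by
      have h9 : ∑ i, ENNReal.ofReal (((1 + 4 * δ' / om (n + 1)) * ‖a i - b i‖) ^ q) *
          surf n (K i) = ENNReal.ofReal (∑ i, ((1 + 4 * δ' / om (n + 1)) * ‖a i - b i‖) ^ q * S i) := by
        rw [ENNReal.ofReal_sum_of_nonneg]
        · refine Finset.sum_congr rfl fun i _ => ?_
          rw [ENNReal.ofReal_mul (by have := om_pos (n + 1); positivity),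
            ENNReal.ofReal_toReal (hfin i)]
        · intro i _
          have := om_pos (n + 1); have := hS0 i
          positivity
      rw [h9] at hsum
      exact (ENNReal.ofReal_le_ofReal_iff (Finset.sum_nonneg fun i _ => by
        have := om_pos (n + 1); have := hS0 i
        positivity)).1 hsum
    have h10 : ∀ i, ((1 + 4 * δ' / om (n + 1)) * ‖a i - b i‖) ^ q * S i ≤ (1 + θ) ^ 4 * A i := by
      intro i
      have ho1 := om_pos (n + 1)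
      have hJ : 0 ≤ ‖a i - b i‖ ^ q := by positivity
      have g1 : ((1 + 4 * δ' / om (n + 1)) * ‖a i - b i‖) ^ q ≤ (1 + θ) * ‖a i - b i‖ ^ q := by
        rw [Real.mul_rpow (by positivity) (norm_nonneg _)]
        exact mul_le_mul_of_nonneg_right p2 hJ
      have g2 : ‖a i - b i‖ ^ q ≤ (1 + θ) * P i := by
        rw [hP]
        simp only
        rw [Real.mul_rpow (by linarith) (norm_nonneg _), ← mul_assoc]
        nlinarith
      have g3 : 1 ≤ (1 + θ) ^ 2 * ((R - 2) ^ n / (l ^ n * R ^ n)) := by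
        rw [← mul_div_assoc, one_le_div (by positivity)]
        calc l ^ n * R ^ n ≤ (1 + θ) * ((1 + θ) * (R - 2) ^ n) := by gcongr
          _ = _ := by ring
      have g4 : ((1 + 4 * δ' / om (n + 1)) * ‖a i - b i‖) ^ q ≤ (1 + θ) ^ 2 * P i := by
        calc _ ≤ (1 + θ) * ‖a i - b i‖ ^ q := g1
          _ ≤ (1 + θ) * ((1 + θ) * P i) := by gcongr
          _ = _ := by ring
      have hSP : 0 ≤ S i * P i := mul_nonneg (hS0 i) (hP0 i)
      calc ((1 + 4 * δ' / om (n + 1)) * ‖a i - b i‖) ^ q * S i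
          ≤ ((1 + θ) ^ 2 * P i) * S i := mul_le_mul_of_nonneg_right g4 (hS0 i)
        _ = (1 + θ) ^ 2 * (S i * P i) * 1 := by ring
        _ ≤ (1 + θ) ^ 2 * (S i * P i) * ((1 + θ) ^ 2 * ((R - 2) ^ n / (l ^ n * R ^ n))) := by
            gcongr
        _ = (1 + θ) ^ 4 * A i := by simp only [hA]; ring
    calc m ≤ _ := h8
      _ ≤ ∑ i, (1 + θ) ^ 4 * A i := Finset.sum_le_sum fun i _ => h10 i
      _ = _ := by rw [Finset.mul_sum]
  have hc1 : (1 - θ) ^ q * I ^ q * (s' * B) ≤ (1 - θ) ^ q * I ^ q * (θ * k' * ∑ i, A i) := by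
    refine mul_le_mul_of_nonneg_left ?_ hc0
    calc s' * B ≤ s' * (θ * k' / (s' + 1) * ∑ i, A i) := by gcongr
      _ = s' / (s' + 1) * (θ * k' * ∑ i, A i) := by ring
      _ ≤ 1 * (θ * k' * ∑ i, A i) := by
          have : s' / (s' + 1) ≤ 1 := by rw [div_le_one (by linarith)]; linarith
          have h11 : 0 ≤ θ * k' * ∑ i, A i := by positivity
          exact mul_le_mul_of_nonneg_right this h11
      _ = _ := one_mul _
  have hfinal : (1 - θ) ^ q * I ^ q * (k' * (1 - θ)) * ∑ i, A i ≤ L + s' * θ := by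
    nlinarith [hlog, hc1]
  have hc2 : 0 ≤ (1 - θ) ^ q * I ^ q * (k' * (1 - θ)) :=
    mul_nonneg hc0 (mul_nonneg hk.le (by linarith))
  calc (1 - θ) ^ q * I ^ q * (k' * (1 - θ)) * m
      ≤ (1 - θ) ^ q * I ^ q * (k' * (1 - θ)) * ((1 + θ) ^ 4 * ∑ i, A i) :=
        mul_le_mul_of_nonneg_left hmA hc2
    _ = (1 + θ) ^ 4 * ((1 - θ) ^ q * I ^ q * (k' * (1 - θ)) * ∑ i, A i) := by ring
    _ ≤ _ := by gcongr

theorem main (hSel : S_SEL) (hLoc : S_LOC) (hMol : S_MOL) (hLog : S_LOG) (hSh : S_SHELL) :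
    S_MAIN := by
  intro n d q u η hq hu hCex hη
  obtain ⟨C, hC⟩ := hCex
  set L := liminf (fun ε : ℝ => gag q (moll η u ε) / ENNReal.ofReal |Real.log ε|) (𝓝[>] 0) with hLdef
  by_cases hLt : L = ⊤
  · rw [hLt]; exact le_top
  have hsh := hSh n (EuclideanSpace.single 0 1) 1 2 (by simp) one_pos (by norm_num)
  obtain ⟨-, -, hk1, hs1, hk0⟩ := hsh
  set k' := (kappa n).toReal with hk'
  set s' := (sig n).toReal with hs'
  set Lr := L.toReal with hLr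
  have hkp : 0 < k' := ENNReal.toReal_pos hk0 hk1
  apply ENNReal.mul_le_of_forall_lt
  intro a' ha' M hM
  have hMt : M ≠ ⊤ := (hM.trans_le le_top).ne
  have hkey : ∀ θ ∈ Ioo (0:ℝ) 1, (1 - θ) ^ q * |∫ z, η z| ^ q * (k' * (1 - θ)) * M.toReal ≤
      (1 + θ) ^ 4 * (Lr + s' * θ) := by
    intro θ hθ
    refine step hSel hLoc hMol hLog hq hu hC hη (m := M.toReal) ENNReal.toReal_nonneg ?_ hkp
      (ENNReal.ofReal_toReal hk1).symm ENNReal.toReal_nonneg (ENNReal.ofReal_toReal hs1).symm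
      ENNReal.toReal_nonneg (ENNReal.ofReal_toReal hLt).symm hθ.1 hθ.2
    rw [ENNReal.ofReal_toReal hMt]; exact hM
  have hlim : |∫ z, η z| ^ q * k' * M.toReal ≤ Lr := by
    have h1 : Tendsto (fun θ : ℝ => (1 - θ) ^ q * |∫ z, η z| ^ q * (k' * (1 - θ)) * M.toReal)
        (𝓝[>] 0) (𝓝 ((1 - 0) ^ q * |∫ z, η z| ^ q * (k' * (1 - 0)) * M.toReal)) := by
      apply Tendsto.mono_left _ nhdsWithin_le_nhds
      have hc : ContinuousAt (fun θ : ℝ => (1 - θ) ^ q) 0 :=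
        (continuousAt_const.sub continuousAt_id).rpow_const (Or.inr (by linarith))
      have : ContinuousAt (fun θ : ℝ => (1 - θ) ^ q * |∫ z, η z| ^ q * (k' * (1 - θ)) * M.toReal) 0 := by
        refine ContinuousAt.mul (ContinuousAt.mul (hc.mul continuousAt_const) ?_) continuousAt_const
        fun_prop
      exact this
    have h2 : Tendsto (fun θ : ℝ => (1 + θ) ^ 4 * (Lr + s' * θ)) (𝓝[>] 0)
        (𝓝 ((1 + 0) ^ 4 * (Lr + s' * 0))) := by
      apply Tendsto.mono_left _ nhdsWithin_le_nhds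
      have : Continuous (fun θ : ℝ => (1 + θ) ^ 4 * (Lr + s' * θ)) := by fun_prop
      exact this.tendsto 0
    have h3 := le_of_tendsto_of_tendsto h1 h2 (by
      filter_upwards [Ioo_mem_nhdsGT (one_pos : (0:ℝ) < 1)] with θ hθ using hkey θ hθ)
    simpa using h3
  calc a' * M ≤ (ENNReal.ofReal (|∫ z, η z| ^ q) * kappa n) * M := by gcongr
    _ = ENNReal.ofReal (|∫ z, η z| ^ q * k' * M.toReal) := by
        rw [ENNReal.ofReal_mul (by positivity), ENNReal.ofReal_mul (by positivity),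
          ENNReal.ofReal_toReal hMt, hk', ENNReal.ofReal_toReal hk1]
    _ ≤ ENNReal.ofReal Lr := ENNReal.ofReal_le_ofReal hlim
    _ = L := ENNReal.ofReal_toReal hLt

end Pool.Agent.Q61.JS
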