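import Pool.Agent.Q61.JS.Stm

namespace Pool.Agent.Q61.JS

open MeasureTheory Filter Topology Set Metric
open scoped ENNReal NNReal

/-- Jensen/Hoelder with weight. -/
lemma jensen {α : Type*} [MeasurableSpace α] (μ : Measure α) (q : ℝ) (hq : 1 ≤ q)
    (f g : α → ℝ≥0∞) (hf : AEMeasurable f μ) (hg : AEMeasurable g μ) (hft : ∫⁻ a, f a ∂μ ≠ ⊤) :
    (∫⁻ a, f a * g a ∂μ) ^ q ≤ (∫⁻ a, f a ∂μ) ^ (q - 1) * ∫⁻ a, f a * g a ^ q ∂μ := by
  rcases eq_or_lt_of_le hq with h1 | h1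
  · subst h1
    simp
  have hq0 : 0 < q := by linarith
  have hc : (q / (q - 1)).HolderConjugate q := (Real.HolderConjugate.conjExponent h1).symm
  have hH := ENNReal.lintegral_mul_le_Lp_mul_Lq μ hc (f := fun a => f a ^ ((q - 1) / q))
    (g := fun a => f a ^ (1 / q) * g a) (hf.pow_const _) ((hf.pow_const _).mul hg)
  have hft' : ∀ᵐ a ∂μ, f a ≠ ⊤ := by
    filter_upwards [ae_lt_top' hf hft] with a ha using ha.ne
  have e1 : ∫⁻ a, f a * g a ∂μ = ∫⁻ a, ((fun a => f a ^ ((q - 1) / q)) * fun a => f a ^ (1 / q) * g a) a ∂μ := by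
    refine lintegral_congr fun a => ?_
    simp only [Pi.mul_apply]
    rw [← mul_assoc, ← ENNReal.rpow_add_of_nonneg _ _ (div_nonneg (by linarith) hq0.le) (by positivity)]
    have : (q - 1) / q + 1 / q = 1 := by field_simp; ring
    rw [this, ENNReal.rpow_one]
  have e2 : ∫⁻ a, (f a ^ ((q - 1) / q)) ^ (q / (q - 1)) ∂μ = ∫⁻ a, f a ∂μ := by
    refine lintegral_congr fun a => ?_
    rw [← ENNReal.rpow_mul]
    have : (q - 1) / q * (q / (q - 1)) = 1 := by
      have : q - 1 ≠ 0 := by linarith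
      field_simp
    rw [this, ENNReal.rpow_one]
  have e3 : ∫⁻ a, (f a ^ (1 / q) * g a) ^ q ∂μ = ∫⁻ a, f a * g a ^ q ∂μ := by
    refine lintegral_congr fun a => ?_
    rw [ENNReal.mul_rpow_of_nonneg _ _ hq0.le, ← ENNReal.rpow_mul]
    have : 1 / q * q = 1 := by field_simp
    rw [this, ENNReal.rpow_one]
  rw [← e1, e2, e3] at hH
  calc (∫⁻ a, f a * g a ∂μ) ^ q ≤ ((∫⁻ a, f a ∂μ) ^ (1 / (q / (q - 1))) *
        (∫⁻ a, f a * g a ^ q ∂μ) ^ (1 / q)) ^ q := ENNReal.rpow_le_rpow hH hq0.le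
    _ = _ := by
        rw [ENNReal.mul_rpow_of_nonneg _ _ hq0.le, ← ENNReal.rpow_mul, ← ENNReal.rpow_mul]
        congr 2
        · have : q - 1 ≠ 0 := by linarith
          field_simp
        · have : 1 / q * q = 1 := by field_simp
          rw [this, ENNReal.rpow_one]

/-- pointwise inequality -/
lemma pt {F : Type*} [NormedAddCommGroup F] (A B : F) (q s : ℝ) (hq : 1 ≤ q) (hs : 0 < s)
    (hs1 : s < 1) :
    ENNReal.ofReal ((1 - s) ^ q) * ‖A‖ₑ ^ q ≤ ‖A + B‖ₑ ^ q + ENNReal.ofReal (s⁻¹ ^ q) * ‖B‖ₑ ^ q := by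
  have hq0 : 0 ≤ q := by linarith
  have r1 : ∀ x : F, ‖x‖ₑ ^ q = ENNReal.ofReal (‖x‖ ^ q) := fun x => by
    rw [← ofReal_norm_eq_enorm, ENNReal.ofReal_rpow_of_nonneg (norm_nonneg _) hq0]
  rw [r1, r1, r1, ← ENNReal.ofReal_mul (Real.rpow_nonneg (by linarith) _),
    ← ENNReal.ofReal_mul (by positivity), ← ENNReal.ofReal_add (by positivity) (by positivity)]
  apply ENNReal.ofReal_le_ofReal
  have h1 : 0 ≤ 1 - s := by linarith
  rw [← Real.mul_rpow h1 (norm_nonneg _), ← Real.mul_rpow (by positivity) (norm_nonneg _)]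
  rcases le_or_gt (s * ‖A‖) ‖B‖ with h | h
  · have h2 : (1 - s) * ‖A‖ ≤ s⁻¹ * ‖B‖ := by
      calc (1 - s) * ‖A‖ ≤ 1 * ‖A‖ := by
            apply mul_le_mul_of_nonneg_right _ (norm_nonneg _); linarith
        _ = s⁻¹ * (s * ‖A‖) := by field_simp
        _ ≤ _ := by gcongr
    have h3 := Real.rpow_le_rpow (by positivity) h2 hq0
    have h4 : 0 ≤ ‖A + B‖ ^ q := by positivity
    linarith
  · have h2 : (1 - s) * ‖A‖ ≤ ‖A + B‖ := by
      have : ‖A‖ ≤ ‖A + B‖ + ‖B‖ := by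
        calc ‖A‖ = ‖(A + B) - B‖ := by congr 1; abel
          _ ≤ _ := norm_sub_le _ _
      nlinarith
    have h3 := Real.rpow_le_rpow (by positivity) h2 hq0
    have h4 : 0 ≤ (s⁻¹ * ‖B‖) ^ q := by positivity
    linarith

/-- the tail functional -/
lemma tail_tendsto {N : ℕ} (η : E N → ℝ) (hη : Integrable η volume) (hm : Measurable η) :
    Tendsto (fun k : ℕ => ∫⁻ z, ‖η z‖ₑ * min 1 (‖z‖ₑ / ((k : ℝ≥0∞) + 1))) atTop (𝓝 0) := by
  have h := tendsto_lintegral_of_dominated_convergence (μ := (volume : Measure (E N)))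
    (F := fun (k : ℕ) z => ‖η z‖ₑ * min 1 (‖z‖ₑ / ((k : ℝ≥0∞) + 1))) (f := fun _ => 0)
    (fun z => ‖η z‖ₑ) (fun k => ?_) (fun k => ?_) ?_ ?_
  · simpa using h
  · exact hm.enorm.mul (measurable_const.min (measurable_enorm.div_const _))
  · filter_upwards with z
    calc ‖η z‖ₑ * min 1 (‖z‖ₑ / ((k : ℝ≥0∞) + 1)) ≤ ‖η z‖ₑ * 1 := by gcongr; exact min_le_left _ _
      _ = _ := mul_one _
  · exact hη.2.ne
  · filter_upwards with z
    have h1 : Tendsto (fun k : ℕ => ‖z‖ₑ / ((k : ℝ≥0∞) + 1)) atTop (𝓝 0) := by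
      have h2 : Tendsto (fun k : ℕ => ((k : ℝ≥0∞) + 1)) atTop (𝓝 ⊤) := by
        have := (tendsto_add_atTop_iff_nat 1).2 ENNReal.tendsto_nat_nhds_top
        simpa using this
      have h3 := ENNReal.Tendsto.const_div (a := ‖z‖ₑ) h2 (Or.inr enorm_ne_top)
      simpa using h3
    have h2 : Tendsto (fun k : ℕ => min 1 (‖z‖ₑ / ((k : ℝ≥0∞) + 1))) atTop (𝓝 0) := by
      refine tendsto_of_tendsto_of_tendsto_of_le_of_le tendsto_const_nhds h1
        (fun _ => zero_le) (fun _ => min_le_right _ _)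
    have h3 := ENNReal.Tendsto.const_mul (a := ‖η z‖ₑ) h2 (Or.inr enorm_ne_top)
    simpa using h3

/-- the core estimate for measurable data -/
lemma core {N d : ℕ} (u : E N → E d) (η : E N → ℝ) (q s : ℝ) (C : ℝ≥0)
    (hq : 1 ≤ q) (hs : 0 < s) (hs1 : s < 1) (hum : Measurable u) (hηm : Measurable η)
    (hu : ∫⁻ y, ‖u y‖ₑ ^ q ≠ ⊤) (hC : ∀ h, h ≠ 0 → dq q u h ≤ C * ‖h‖ₑ)
    (hη : Integrable η volume) (k : ℕ) (ε : ℝ) (h : E N) (hε : 0 < ε)
    (hh : ((k : ℝ) + 1) * ε ≤ ‖h‖) (hvm : AEStronglyMeasurable (moll η u ε) volume) :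
    ENNReal.ofReal ((1 - s) ^ q * |∫ z, η z| ^ q) * dq q u h ≤ dq q (moll η u ε) h +
      ENNReal.ofReal (s⁻¹ ^ q) * ((∫⁻ z, ‖η z‖ₑ) ^ (q - 1) * (2 ^ q * C *
        ∫⁻ z, ‖η z‖ₑ * min 1 (‖z‖ₑ / ((k : ℝ≥0∞) + 1)))) * ‖h‖ₑ := by
  have hq0 : 0 ≤ q := by linarith
  have hM1 : ∫⁻ z, ‖η z‖ₑ ≠ ⊤ := hη.2.ne
  set G : E N → E N → E d := fun y z => (u (y + h - ε • z) - u (y - ε • z)) - (u (y + h) - u y) with hG
  -- ae integrability
  have hint : ∀ᵐ y : E N, Integrable (fun z => η z • u (y - ε • z)) volume := by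
    have hJ : ∫⁻ y, (∫⁻ z, ‖η z‖ₑ * ‖u (y - ε • z)‖ₑ) ^ q ≠ ⊤ := by
      have h1 : ∫⁻ y, (∫⁻ z, ‖η z‖ₑ * ‖u (y - ε • z)‖ₑ) ^ q ≤
          (∫⁻ z, ‖η z‖ₑ) ^ (q - 1) * ((∫⁻ z, ‖η z‖ₑ) * ∫⁻ y, ‖u y‖ₑ ^ q) := by
        calc ∫⁻ y, (∫⁻ z, ‖η z‖ₑ * ‖u (y - ε • z)‖ₑ) ^ q
            ≤ ∫⁻ y, (∫⁻ z, ‖η z‖ₑ) ^ (q - 1) * ∫⁻ z, ‖η z‖ₑ * ‖u (y - ε • z)‖ₑ ^ q := by
              refine lintegral_mono fun y => ?_
              exact jensen volume q hq _ _ hηm.enorm.aemeasurable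
                (by fun_prop) hM1
          _ = (∫⁻ z, ‖η z‖ₑ) ^ (q - 1) * ∫⁻ y, ∫⁻ z, ‖η z‖ₑ * ‖u (y - ε • z)‖ₑ ^ q := by
              rw [lintegral_const_mul' _ _ (ENNReal.rpow_ne_top_of_nonneg (by linarith) hM1)]
          _ = (∫⁻ z, ‖η z‖ₑ) ^ (q - 1) * ∫⁻ z, ∫⁻ y, ‖η z‖ₑ * ‖u (y - ε • z)‖ₑ ^ q := by
              rw [lintegral_lintegral_swap]
              apply Measurable.aemeasurable
              unfold Function.uncurry
              fun_prop
          _ = _ := by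
              congr 1
              calc ∫⁻ z, ∫⁻ y, ‖η z‖ₑ * ‖u (y - ε • z)‖ₑ ^ q
                  = ∫⁻ z, ‖η z‖ₑ * ∫⁻ y, ‖u y‖ₑ ^ q := by
                    refine lintegral_congr fun z => ?_
                    rw [lintegral_const_mul' _ _ enorm_ne_top,
                      lintegral_sub_right_eq_self (fun y => ‖u y‖ₑ ^ q) (ε • z)]
                _ = _ := by rw [lintegral_mul_const' _ _ hu]
      refine ne_top_of_le_ne_top ?_ h1
      exact ENNReal.mul_ne_top (ENNReal.rpow_ne_top_of_nonneg (by linarith) hM1)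
        (ENNReal.mul_ne_top hM1 hu)
    have hmJ : AEMeasurable (fun y => (∫⁻ z, ‖η z‖ₑ * ‖u (y - ε • z)‖ₑ) ^ q) := by
      apply AEMeasurable.pow_const
      apply Measurable.aemeasurable
      apply Measurable.lintegral_prod_right'
        (f := fun p : E N × E N => ‖η p.2‖ₑ * ‖u (p.1 - ε • p.2)‖ₑ)
      fun_prop
    filter_upwards [ae_lt_top' hmJ hJ] with y hy
    refine ⟨by fun_prop, ?_⟩
    have h2 : (∫⁻ z, ‖η z‖ₑ * ‖u (y - ε • z)‖ₑ) < ⊤ := by
      by_contra hcon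
      rw [not_lt_top_iff] at hcon
      rw [hcon, ENNReal.top_rpow_of_pos (by linarith)] at hy
      exact absurd hy (lt_irrefl _)
    calc ∫⁻ z, ‖η z • u (y - ε • z)‖ₑ = ∫⁻ z, ‖η z‖ₑ * ‖u (y - ε • z)‖ₑ := by
          refine lintegral_congr fun z => ?_
          rw [enorm_smul]
      _ < ⊤ := h2
  have hint2 : ∀ᵐ y : E N, Integrable (fun z => η z • u (y + h - ε • z)) volume := by
    have := (measurePreserving_add_right volume h).quasiMeasurePreserving.ae hint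
    exact this
  -- the identity
  have hid : ∀ᵐ y : E N, moll η u ε (y + h) - moll η u ε y =
      (∫ z, η z) • (u (y + h) - u y) + ∫ z, η z • G y z := by
    filter_upwards [hint, hint2] with y h1 h2
    have h3 : Integrable (fun z => η z • (u (y + h) - u y)) volume := hη.smul_const _
    have e : ∀ z, η z • G y z = η z • u (y + h - ε • z) - η z • u (y - ε • z) -
        η z • (u (y + h) - u y) := by
      intro z
      simp only [hG, smul_sub]
    have e2 : ∫ z, η z • G y z = (∫ z, η z • u (y + h - ε • z)) - (∫ z, η z • u (y - ε • z)) -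
        ∫ z, η z • (u (y + h) - u y) := by
      have i1 := integral_sub h2 h1
      have i2 : ∫ z, ((η z • u (y + h - ε • z) - η z • u (y - ε • z)) - η z • (u (y + h) - u y)) =
          (∫ z, (η z • u (y + h - ε • z) - η z • u (y - ε • z))) -
            ∫ z, η z • (u (y + h) - u y) := integral_sub (h2.sub h1) h3
      rw [integral_congr_ae (Eventually.of_forall e), i2, i1]
    rw [e2, integral_smul_const]
    unfold moll
    abel
  -- the error
  have hGq : ∀ z, ∫⁻ y, ‖G y z‖ₑ ^ q ≤ 2 ^ q * C * ‖h‖ₑ * min 1 (‖z‖ₑ / ((k : ℝ≥0∞) + 1)) := by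
    intro z
    have hh0 : 0 < ‖h‖ := lt_of_lt_of_le (by positivity) hh
    have hh1 : h ≠ 0 := norm_pos_iff.1 hh0
    have htwo : (2 : ℝ≥0∞) ^ (q - 1) * 2 = 2 ^ q := by
      calc (2 : ℝ≥0∞) ^ (q - 1) * 2 = 2 ^ (q - 1) * 2 ^ (1:ℝ) := by rw [ENNReal.rpow_one]
        _ = 2 ^ q := by
            rw [← ENNReal.rpow_add _ _ (by norm_num) (by norm_num)]; congr 1; ring
    have hsplit : ∀ (a b : E N → E d), Measurable a → Measurable b →
        (∫⁻ y, ‖a y - b y‖ₑ ^ q) ≤ 2 ^ (q - 1) * ((∫⁻ y, ‖a y‖ₑ ^ q) + ∫⁻ y, ‖b y‖ₑ ^ q) := by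
      intro a b ha hb
      calc (∫⁻ y, ‖a y - b y‖ₑ ^ q) ≤ ∫⁻ y, 2 ^ (q - 1) * (‖a y‖ₑ ^ q + ‖b y‖ₑ ^ q) := by
            refine lintegral_mono fun y => ?_
            calc ‖a y - b y‖ₑ ^ q ≤ (‖a y‖ₑ + ‖b y‖ₑ) ^ q :=
                  ENNReal.rpow_le_rpow enorm_sub_le hq0
              _ ≤ _ := ENNReal.rpow_add_le_mul_rpow_add_rpow _ _ hq
        _ = _ := by
            rw [lintegral_const_mul' _ _ (ENNReal.rpow_ne_top_of_nonneg (by linarith) (by norm_num)),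
              lintegral_add_left (by fun_prop)]
    have b1 : ∫⁻ y, ‖G y z‖ₑ ^ q ≤ 2 ^ q * dq q u h := by
      calc ∫⁻ y, ‖G y z‖ₑ ^ q ≤ 2 ^ (q - 1) * ((∫⁻ y, ‖u (y + h - ε • z) - u (y - ε • z)‖ₑ ^ q) +
            ∫⁻ y, ‖u (y + h) - u y‖ₑ ^ q) := by
            have := hsplit (fun y => u (y + h - ε • z) - u (y - ε • z)) (fun y => u (y + h) - u y)
              (by fun_prop) (by fun_prop)
            exact this
        _ = 2 ^ (q - 1) * (dq q u h + dq q u h) := by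
            congr 2
            have : ∀ y, u (y + h - ε • z) - u (y - ε • z) = u ((y - ε • z) + h) - u (y - ε • z) := by
              intro y; congr 2; abel
            simp only [this]
            exact lintegral_sub_right_eq_self (fun y => ‖u (y + h) - u y‖ₑ ^ q) (ε • z)
        _ = 2 ^ q * dq q u h := by rw [← two_mul, ← mul_assoc, htwo]
    have b2 : ∫⁻ y, ‖G y z‖ₑ ^ q ≤ 2 ^ q * dq q u (-(ε • z)) := by
      calc ∫⁻ y, ‖G y z‖ₑ ^ q = ∫⁻ y, ‖(u (y + h - ε • z) - u (y + h)) -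
            (u (y - ε • z) - u y)‖ₑ ^ q := by
            refine lintegral_congr fun y => ?_
            congr 2
            simp only [hG]; abel
        _ ≤ 2 ^ (q - 1) * ((∫⁻ y, ‖u (y + h - ε • z) - u (y + h)‖ₑ ^ q) +
            ∫⁻ y, ‖u (y - ε • z) - u y‖ₑ ^ q) := hsplit _ _ (by fun_prop) (by fun_prop)
        _ = 2 ^ (q - 1) * (dq q u (-(ε • z)) + dq q u (-(ε • z))) := by
            congr 2
            · have e := lintegral_add_right_eq_self (μ := (volume : Measure (E N)))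
                (fun y => ‖u (y - ε • z) - u y‖ₑ ^ q) h
              simp only [dq, ← sub_eq_add_neg]
              exact e
        _ = _ := by rw [← two_mul, ← mul_assoc, htwo]
    have c1 : dq q u h ≤ C * ‖h‖ₑ := hC h hh1
    have c2 : dq q u (-(ε • z)) ≤ C * (‖h‖ₑ * (‖z‖ₑ / ((k : ℝ≥0∞) + 1))) := by
      rcases eq_or_ne z 0 with hz | hz
      · subst hz
        have : dq q u (-(ε • (0 : E N))) = 0 := by
          simp [dq, ENNReal.zero_rpow_of_pos (show 0 < q by linarith)]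
        rw [this]; exact zero_le
      · have hne : -(ε • z) ≠ 0 := by
          rw [neg_ne_zero]; exact smul_ne_zero hε.ne' hz
        refine (hC _ hne).trans ?_
        gcongr
        have e1 : ‖z‖ₑ / ((k : ℝ≥0∞) + 1) = ENNReal.ofReal (‖z‖ / ((k : ℝ) + 1)) := by
          rw [ENNReal.ofReal_div_of_pos (by positivity), ofReal_norm_eq_enorm,
            ENNReal.ofReal_add (by positivity) (by norm_num)]
          simp
        rw [e1, ← ofReal_norm_eq_enorm, ← ofReal_norm_eq_enorm, ← ENNReal.ofReal_mul (norm_nonneg _)]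
        apply ENNReal.ofReal_le_ofReal
        rw [norm_neg, norm_smul, Real.norm_of_nonneg hε.le, ← mul_div_assoc,
          le_div_iff₀ (by positivity)]
        have := norm_nonneg z
        nlinarith
    rcases le_total 1 (‖z‖ₑ / ((k : ℝ≥0∞) + 1)) with hm | hm
    · rw [min_eq_left hm, mul_one]
      calc _ ≤ 2 ^ q * dq q u h := b1
        _ ≤ 2 ^ q * (C * ‖h‖ₑ) := by gcongr
        _ = _ := by ring
    · rw [min_eq_right hm]
      calc _ ≤ 2 ^ q * dq q u (-(ε • z)) := b2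
        _ ≤ 2 ^ q * (C * (‖h‖ₑ * (‖z‖ₑ / ((k : ℝ≥0∞) + 1)))) := by gcongr
        _ = _ := by ring
  have herr : ∫⁻ y, ‖∫ z, η z • G y z‖ₑ ^ q ≤ (∫⁻ z, ‖η z‖ₑ) ^ (q - 1) * (2 ^ q * C *
        ∫⁻ z, ‖η z‖ₑ * min 1 (‖z‖ₑ / ((k : ℝ≥0∞) + 1))) * ‖h‖ₑ := by
    calc ∫⁻ y, ‖∫ z, η z • G y z‖ₑ ^ q ≤ ∫⁻ y, (∫⁻ z, ‖η z‖ₑ) ^ (q - 1) *
          ∫⁻ z, ‖η z‖ₑ * ‖G y z‖ₑ ^ q := by
          refine lintegral_mono fun y => ?_
          have h1 : ‖∫ z, η z • G y z‖ₑ ≤ ∫⁻ z, ‖η z‖ₑ * ‖G y z‖ₑ := by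
            refine (enorm_integral_le_lintegral_enorm _).trans (le_of_eq ?_)
            refine lintegral_congr fun z => ?_
            rw [enorm_smul]
          calc ‖∫ z, η z • G y z‖ₑ ^ q ≤ (∫⁻ z, ‖η z‖ₑ * ‖G y z‖ₑ) ^ q :=
                ENNReal.rpow_le_rpow h1 hq0
            _ ≤ _ := jensen volume q hq _ _ hηm.enorm.aemeasurable (by simp only [hG]; fun_prop) hM1
      _ = (∫⁻ z, ‖η z‖ₑ) ^ (q - 1) * ∫⁻ y, ∫⁻ z, ‖η z‖ₑ * ‖G y z‖ₑ ^ q := by
          rw [lintegral_const_mul' _ _ (ENNReal.rpow_ne_top_of_nonneg (by linarith) hM1)]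
      _ = (∫⁻ z, ‖η z‖ₑ) ^ (q - 1) * ∫⁻ z, ∫⁻ y, ‖η z‖ₑ * ‖G y z‖ₑ ^ q := by
          rw [lintegral_lintegral_swap]
          apply Measurable.aemeasurable
          unfold Function.uncurry
          simp only [hG]
          fun_prop
      _ ≤ (∫⁻ z, ‖η z‖ₑ) ^ (q - 1) * ∫⁻ z, ‖η z‖ₑ * (2 ^ q * C * ‖h‖ₑ *
            min 1 (‖z‖ₑ / ((k : ℝ≥0∞) + 1))) := by
          gcongr with z
          rw [lintegral_const_mul' _ _ enorm_ne_top]
          gcongr
          exact hGq z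
      _ = _ := by
          have e5 : ∫⁻ z, ‖η z‖ₑ * (2 ^ q * C * ‖h‖ₑ * min 1 (‖z‖ₑ / ((k : ℝ≥0∞) + 1)))
              = (2 ^ q * C * ‖h‖ₑ) * ∫⁻ z, (‖η z‖ₑ * min 1 (‖z‖ₑ / ((k : ℝ≥0∞) + 1))) := by
            rw [← lintegral_const_mul' _ _ ?_]
            · refine lintegral_congr fun z => ?_
              ring
            · exact ENNReal.mul_ne_top (ENNReal.mul_ne_top
                (ENNReal.rpow_ne_top_of_nonneg hq0 (by norm_num)) ENNReal.coe_ne_top) enorm_ne_top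
          rw [e5]
          ring
  -- conclusion
  have hI : ENNReal.ofReal ((1 - s) ^ q * |∫ z, η z| ^ q) * dq q u h =
      ∫⁻ y, ENNReal.ofReal ((1 - s) ^ q) * ‖(∫ z, η z) • (u (y + h) - u y)‖ₑ ^ q := by
    unfold dq
    rw [← lintegral_const_mul' _ _ ENNReal.ofReal_ne_top]
    refine lintegral_congr fun y => ?_
    rw [enorm_smul, ENNReal.mul_rpow_of_nonneg _ _ hq0, ENNReal.ofReal_mul
      (Real.rpow_nonneg (by linarith) _), mul_assoc, ← ENNReal.ofReal_rpow_of_nonneg (abs_nonneg _) hq0,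
      ← Real.norm_eq_abs, ofReal_norm_eq_enorm]
  have hdm : AEMeasurable (fun y => ‖moll η u ε (y + h) - moll η u ε y‖ₑ ^ q) := by
    refine AEMeasurable.pow_const ?_ _
    refine AEStronglyMeasurable.enorm ?_
    exact (hvm.comp_quasiMeasurePreserving
      (measurePreserving_add_right volume h).quasiMeasurePreserving).sub hvm
  rw [hI]
  calc ∫⁻ y, ENNReal.ofReal ((1 - s) ^ q) * ‖(∫ z, η z) • (u (y + h) - u y)‖ₑ ^ q
      ≤ ∫⁻ y, (‖moll η u ε (y + h) - moll η u ε y‖ₑ ^ q + ENNReal.ofReal (s⁻¹ ^ q) *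
          ‖∫ z, η z • G y z‖ₑ ^ q) := by
        refine lintegral_mono_ae ?_
        filter_upwards [hid] with y hy
        rw [hy]
        exact pt _ _ q s hq hs hs1
    _ = dq q (moll η u ε) h + ENNReal.ofReal (s⁻¹ ^ q) * ∫⁻ y, ‖∫ z, η z • G y z‖ₑ ^ q := by
        rw [lintegral_add_left' hdm, lintegral_const_mul' _ _ ENNReal.ofReal_ne_top]
        rfl
    _ ≤ _ := by
        rw [mul_assoc (ENNReal.ofReal (s⁻¹ ^ q))]
        gcongr

lemma dq_congr {N d : ℕ} (q : ℝ) (u v : E N → E d) (h : E N) (huv : u =ᵐ[volume] v) :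
    dq q u h = dq q v h := by
  unfold dq
  have h2 : ∀ᵐ y : E N, u (y + h) = v (y + h) :=
    (measurePreserving_add_right volume h).quasiMeasurePreserving.ae huv
  refine lintegral_congr_ae ?_
  filter_upwards [huv, h2] with y h1 h2
  rw [h1, h2]

lemma moll_congr {N d : ℕ} (u v : E N → E d) (η θ : E N → ℝ) (ε : ℝ) (hε : 0 < ε)
    (huv : u =ᵐ[volume] v) (hηθ : η =ᵐ[volume] θ) : moll η u ε = moll θ v ε := by
  funext x
  unfold moll
  have h2 : ∀ᵐ z : E N, u (x - ε • z) = v (x - ε • z) := by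
    have h3 : ∀ᵐ y : E N, u (x - y) = v (x - y) :=
      (quasiMeasurePreserving_sub_left volume x).ae huv
    have h4 : Measure.QuasiMeasurePreserving (fun z : E N => ε • z) volume volume := by
      refine ⟨measurable_const_smul ε, ?_⟩
      intro s hs
      by_cases hsm : MeasurableSet s
      · rw [Measure.map_apply (measurable_const_smul ε) hsm,
          Measure.addHaar_preimage_smul volume hε.ne', hs, mul_zero]
      · have hs' : volume (toMeasurable volume s) = 0 := by rw [measure_toMeasurable, hs]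
        refine measure_mono_null (subset_toMeasurable volume s) ?_
        rw [Measure.map_apply (measurable_const_smul ε) (measurableSet_toMeasurable _ _),
          Measure.addHaar_preimage_smul volume hε.ne', hs', mul_zero]
    exact h4.ae h3
  refine integral_congr_ae ?_
  filter_upwards [h2, hηθ] with z h1 h2
  rw [h1, h2]

theorem mol (hMM : S_MM) : S_MOL := by
  intro n d u η q s e C hq hu hC hη hs hs1 he
  have hq0 : 0 < q := by linarith
  set u' := hu.1.mk u with hu'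
  set η' := hη.1.mk η with hη'
  have huu : u =ᵐ[volume] u' := hu.1.ae_eq_mk
  have hηη : η =ᵐ[volume] η' := hη.1.ae_eq_mk
  have hum : Measurable u' := hu.1.stronglyMeasurable_mk.measurable
  have hηm : Measurable η' := hη.1.stronglyMeasurable_mk.measurable
  have hηi : Integrable η' volume := hη.congr hηη
  have huq : ∫⁻ y, ‖u' y‖ₑ ^ q ≠ ⊤ := by
    have h1 : MemLp u' (ENNReal.ofReal q) volume := (memLp_congr_ae huu).1 hu
    have h2 := (eLpNorm_lt_top_iff_lintegral_rpow_enorm_lt_top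
      (ENNReal.ofReal_pos.2 hq0).ne' ENNReal.ofReal_ne_top).1 h1.2
    rw [ENNReal.toReal_ofReal hq0.le] at h2
    exact h2.ne
  have hI : ∫ z, η z = ∫ z, η' z := integral_congr_ae hηη
  have hC' : ∀ h, h ≠ 0 → dq q u' h ≤ C * ‖h‖ₑ := fun h hh => by
    rw [← dq_congr q u u' h huu]; exact hC h hh
  set c0 : ℝ≥0∞ := ENNReal.ofReal (s⁻¹ ^ q) * ((∫⁻ z, ‖η' z‖ₑ) ^ (q - 1) * (2 ^ q * C)) with hc0
  have hc0t : c0 ≠ ⊤ := by
    refine ENNReal.mul_ne_top ENNReal.ofReal_ne_top (ENNReal.mul_ne_top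
      (ENNReal.rpow_ne_top_of_nonneg (by linarith) hηi.2.ne) (ENNReal.mul_ne_top
      (ENNReal.rpow_ne_top_of_nonneg hq0.le (by norm_num)) ENNReal.coe_ne_top))
  have hlim := ENNReal.Tendsto.const_mul (a := c0) (tail_tendsto η' hηi hηm) (Or.inr hc0t)
  rw [mul_zero] at hlim
  obtain ⟨k, hk⟩ := (hlim.eventually (gt_mem_nhds (ENNReal.ofReal_pos.2 he))).exists
  refine ⟨(k : ℝ) + 1, by positivity, fun ε h hε hh => ?_⟩
  have hmm := hMM _ _ u' η' ε hum.aestronglyMeasurable hηi hε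
  have hcore := core u' η' q s C hq hs hs1 hum hηm huq hC' hηi k ε h hε hh hmm
  rw [hI, dq_congr q u u' h huu, moll_congr u u' η η' ε hε huu hηη]
  refine hcore.trans ?_
  gcongr
  calc _ = c0 * ∫⁻ z, ‖η' z‖ₑ * min 1 (‖z‖ₑ / ((k : ℝ≥0∞) + 1)) := by rw [hc0]; ring
    _ ≤ _ := hk.le

end Pool.Agent.Q61.JS
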