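import Pool.Agent.Q61.JS.Stm

namespace Pool.Agent.Q61.JS

open MeasureTheory Filter Topology Set Metric
open scoped ENNReal NNReal

/-- inner regularity, sequence form -/
lemma exists_compact_seq {n : ℕ} (μ : Measure (E n)) (D : Set (E n)) (hD : MeasurableSet D)
    (hloc : ∀ z, ∃ r, 0 < r ∧ μ (D ∩ ball z r) < ⊤) :
    ∃ K : ℕ → Set (E n), (∀ i, IsCompact (K i) ∧ K i ⊆ D ∧ μ (K i) ≠ ⊤) ∧
      Tendsto (fun i => μ (K i)) atTop (𝓝 (μ D)) := by
  by_cases h0 : μ D = 0
  · refine ⟨fun _ => ∅, fun i => ⟨isCompact_empty, empty_subset _, by simp⟩, ?_⟩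
    simp only [measure_empty, h0]
    exact tendsto_const_nhds
  have hLF : IsLocallyFiniteMeasure (μ.restrict D) := by
    refine ⟨fun z => ?_⟩
    obtain ⟨r, hr, h⟩ := hloc z
    refine ⟨ball z r, ball_mem_nhds z hr, ?_⟩
    rw [Measure.restrict_apply measurableSet_ball, inter_comm]
    exact h
  have hpos : (0 : ℝ≥0∞) < μ D := pos_iff_ne_zero.2 h0
  obtain ⟨r, -, hr, hlim⟩ := exists_seq_strictMono_tendsto' hpos
  have hex : ∀ i, ∃ K, IsCompact K ∧ K ⊆ D ∧ μ K ≠ ⊤ ∧ r i ≤ μ K := by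
    intro i
    have h1 : r i < (μ.restrict D) D := by
      rw [Measure.restrict_apply_self]; exact (hr i).2
    obtain ⟨K, hKD, hK, h2⟩ := hD.exists_lt_isCompact h1
    have h3 : (μ.restrict D) K = μ K := by
      rw [Measure.restrict_apply hK.measurableSet, inter_eq_left.2 hKD]
    refine ⟨K, hK, hKD, ?_, ?_⟩
    · rw [← h3]; exact hK.measure_lt_top.ne
    · rw [← h3]; exact h2.le
  choose K h1 h2 h3 h4 using hex
  refine ⟨K, fun i => ⟨h1 i, h2 i, h3 i⟩, ?_⟩
  exact tendsto_of_tendsto_of_tendsto_of_le_of_le hlim tendsto_const_nhds h4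
    (fun i => measure_mono (h2 i))

theorem sel (hMe : S_MEAS) (hR : S_RAD) (hC : S_CONE) (hH : S_HUP) (hCm : S_CMP) (hCo : S_COV) :
    S_SEL := by
  intro n d u q δ σ l M hq hu hδ hσ hl hσl hcone hM
  obtain ⟨T, hTc, hT, hcov⟩ := hCo n d u δ hδ hu
  rcases T.eq_empty_or_nonempty with hTe | hTne
  · exfalso
    have : jumpSet u = ∅ := by
      rw [← subset_empty_iff]
      refine hcov.trans ?_
      simp [hTe]
    rw [this] at hM
    simp at hM
  obtain ⟨p, hp⟩ := hTc.exists_eq_range hTne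
  have hpT : ∀ j, p j ∈ T := fun j => by rw [hp]; exact mem_range_self j
  set D0 : ℕ → Set (E (n + 1)) := fun j => Es u (p j).1 (p j).2.1 (p j).2.2.1 (p j).2.2.2 δ with hD0
  have hD0m : ∀ j, MeasurableSet (D0 j) := fun j => hMe _ _ u _ _ _ _ _ hu
  set D : ℕ → Set (E (n + 1)) := disjointed D0 with hD
  have hDm : ∀ j, MeasurableSet (D j) := MeasurableSet.disjointed hD0m
  have hDsub : ∀ j, D j ⊆ D0 j := fun j => disjointed_subset D0 j
  have hDd : Pairwise fun i j => Disjoint (D i) (D j) := disjoint_disjointed D0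
  have hJD : jumpSet u ⊆ ⋃ j, D j := by
    rw [hD, iUnion_disjointed]
    intro x hx
    obtain ⟨t, ⟨pp, rfl⟩, ht⟩ := hcov hx
    obtain ⟨t', ⟨hpp, rfl⟩, ht'⟩ := ht
    simp only at ht'
    rw [hp] at hpp
    obtain ⟨j, rfl⟩ := hpp
    exact mem_iUnion.2 ⟨j, ht'⟩
  set δ' : ℝ := 2 ^ (n + 1) * δ with hδ'
  have hδ'0 : 0 ≤ δ' := by positivity
  have hnear : ∀ j, ∀ x ∈ D j, Near u (p j).1 (p j).2.1 (p j).2.2.1 x
      (1 / (((p j).2.2.2 : ℝ) + 1)) δ' := fun j x hx =>
    hR _ _ u _ _ _ x _ δ hδ.le (hDsub j hx)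
  have ho : 0 < om (n + 1) := by
    unfold om
    exact ENNReal.toReal_pos (measure_ball_pos _ _ one_pos).ne' measure_ball_lt_top.ne
  set c : ℕ → ℝ≥0∞ := fun j =>
    ENNReal.ofReal (((1 + 4 * δ' / om (n + 1)) * ‖(p j).1 - (p j).2.1‖) ^ q) with hc
  have hcb : ∀ j, ∀ x ∈ D j, jumpSize u x ^ q ≤ c j := by
    intro j x hx
    have h1 : jumpSize u x ≤ ENNReal.ofReal ((1 + 4 * δ' / om (n + 1)) * ‖(p j).1 - (p j).2.1‖) := by
      unfold jumpSize
      refine iSup_le fun a => iSup_le fun b => iSup_le fun ν => iSup_le fun h => ?_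
      rw [← ofReal_norm_eq_enorm]
      apply ENNReal.ofReal_le_ofReal
      exact hCm n d u x a b _ _ ν _ _ δ' hu (by positivity) hδ'0 (hT _ (hpT j)).2 h (hnear j x hx)
    calc jumpSize u x ^ q ≤ (ENNReal.ofReal ((1 + 4 * δ' / om (n + 1)) *
          ‖(p j).1 - (p j).2.1‖)) ^ q := ENNReal.rpow_le_rpow h1 (by linarith)
      _ = c j := ENNReal.ofReal_rpow_of_nonneg (by positivity) (by linarith)
  -- upper bound
  have hup : ∫⁻ x in jumpSet u, jumpSize u x ^ q ∂surf n ≤ ∑' j, c j * surf n (D j) := by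
    set G : E (n + 1) → ℝ≥0∞ := fun x => ∑' j, (D j).indicator (fun _ => c j) x with hG
    have hGm : Measurable G := Measurable.ennreal_tsum fun j => measurable_const.indicator (hDm j)
    calc ∫⁻ x in jumpSet u, jumpSize u x ^ q ∂surf n ≤ ∫⁻ x in jumpSet u, G x ∂surf n := by
          refine setLIntegral_mono hGm fun x hx => ?_
          obtain ⟨j, hj⟩ := mem_iUnion.1 (hJD hx)
          refine (hcb j x hj).trans ?_
          have : (D j).indicator (fun _ => c j) x = c j := indicator_of_mem hj _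
          calc c j = (D j).indicator (fun _ => c j) x := this.symm
            _ ≤ _ := ENNReal.le_tsum j
      _ ≤ ∫⁻ x, G x ∂surf n := setLIntegral_le_lintegral _ _
      _ = ∑' j, ∫⁻ x, (D j).indicator (fun _ => c j) x ∂surf n :=
          lintegral_tsum fun j => (measurable_const.indicator (hDm j)).aemeasurable
      _ = _ := by
          refine tsum_congr fun j => ?_
          rw [lintegral_indicator_const (hDm j)]
  have hM2 := hM.trans_le hup
  rw [ENNReal.tsum_eq_iSup_nat] at hM2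
  obtain ⟨N, hN⟩ := lt_iSup_iff.1 hM2
  -- local finiteness
  have hlf : ∀ j z, ∃ r, 0 < r ∧ surf n (D j ∩ ball z r) < ⊤ := by
    intro j z
    set ρj : ℝ := 1 / (((p j).2.2.2 : ℝ) + 1) with hρj
    have hρj0 : 0 < ρj := by positivity
    refine ⟨ρj / 4, by positivity, ?_⟩
    refine lt_of_le_of_lt (hH n _ (p j).2.2.1 z σ l (ρj / 4) (hT _ (hpT j)).2 hσ hl hσl
      (by positivity) ?_ inter_subset_right) ENNReal.ofReal_lt_top
    intro x hx x' hx'
    refine hC n d u _ _ _ x x' ρj δ' σ hu (hT _ (hpT j)).1 (hT _ (hpT j)).2 hδ'0 hσ hcone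
      (hnear j x hx.1) (hnear j x' hx'.1) ?_
    have h1 := hx.2
    have h2 := hx'.2
    rw [mem_ball, dist_eq_norm] at h1 h2
    have h3 : ‖x' - x‖ ≤ ‖x' - z‖ + ‖x - z‖ := by
      calc ‖x' - x‖ = ‖(x' - z) - (x - z)‖ := by congr 1; abel
        _ ≤ _ := norm_sub_le _ _
    linarith
  choose K hK hKlim using fun j => exists_compact_seq (surf n) (D j) (hDm j) (hlf j)
  have hlim : Tendsto (fun i => ∑ j ∈ Finset.range N, c j * surf n (K j i)) atTop
      (𝓝 (∑ j ∈ Finset.range N, c j * surf n (D j))) := by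
    refine tendsto_finset_sum _ fun j _ => ?_
    exact ENNReal.Tendsto.const_mul (hKlim j) (Or.inr ENNReal.ofReal_ne_top)
  obtain ⟨i, hi⟩ := (hlim.eventually (lt_mem_nhds hN)).exists
  refine ⟨N, fun j => K j i, fun j => (p j).1, fun j => (p j).2.1, fun j => (p j).2.2.1,
    1 / ((∑ j ∈ Finset.range N, ((p j).2.2.2 : ℝ)) + 1), ?_, fun j => (hT _ (hpT j)).1,
    fun j => (hT _ (hpT j)).2, fun j => (hK j i).1, ?_, ?_, fun j => (hK j i).2.2, ?_⟩
  · have : 0 ≤ ∑ j ∈ Finset.range N, ((p j).2.2.2 : ℝ) :=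
      Finset.sum_nonneg fun j _ => Nat.cast_nonneg _
    positivity
  · intro j j' hjj
    exact (hDd (fun h => hjj (Fin.ext h))).mono (hK j i).2.1 (hK j' i).2.1
  · intro j x hx r hr hr2
    refine hnear j x ((hK j i).2.1 hx) r hr (hr2.trans ?_)
    have h4 : ((p j).2.2.2 : ℝ) ≤ ∑ j ∈ Finset.range N, ((p j).2.2.2 : ℝ) :=
      Finset.single_le_sum (f := fun j => ((p j).2.2.2 : ℝ)) (fun j _ => Nat.cast_nonneg _)
        (Finset.mem_range.2 j.2)
    have h5 : (0:ℝ) ≤ ((p j).2.2.2 : ℝ) := Nat.cast_nonneg _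
    apply one_div_le_one_div_of_le
    · linarith
    · linarith
  · rw [Finset.sum_range] at hi
    exact hi.le

end Pool.Agent.Q61.JS
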