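import Mathlib

/-!
# Project JS (helper61): definitions and statements for MP_c377d9_an

Space `X n = ℝ^(n+1)`, target `ℝ^d`.
-/

namespace Pool.Agent.Q61.JS

open MeasureTheory Filter Topology Set Metric
open scoped ENNReal NNReal

/-- Euclidean space `ℝ^n`. -/
abbrev E (n : ℕ) := EuclideanSpace ℝ (Fin n)

/-- The open half ball `{y ∈ B_r(x) : 0 < (y - x)·ν}`. -/
def halfBall {N : ℕ} (x ν : E N) (r : ℝ) : Set (E N) :=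
  {y | y ∈ ball x r ∧ 0 < inner ℝ (y - x) ν}

/-- `x` is an approximate jump point of `u` with one-sided limits `a` (on the side of `ν`) and `b`
(on the side of `-ν`). -/
def IsJump {N d : ℕ} (u : E N → E d) (x : E N) (a b : E d) (ν : E N) : Prop :=
  a ≠ b ∧ ‖ν‖ = 1 ∧
  Tendsto (fun r : ℝ => (∫⁻ y in halfBall x ν r, ‖u y - a‖ₑ) / ENNReal.ofReal (r ^ N))
    (𝓝[>] 0) (𝓝 0) ∧
  Tendsto (fun r : ℝ => (∫⁻ y in halfBall x (-ν) r, ‖u y - b‖ₑ) / ENNReal.ofReal (r ^ N))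
    (𝓝[>] 0) (𝓝 0)

/-- The jump set. -/
def jumpSet {N d : ℕ} (u : E N → E d) : Set (E N) := {x | ∃ a b ν, IsJump u x a b ν}

/-- The jump size `|u⁺ - u⁻|` (supremum over all admissible triples; it does not depend on the
triple), zero off the jump set. -/
noncomputable def jumpSize {N d : ℕ} (u : E N → E d) (x : E N) : ℝ≥0∞ :=
  ⨆ (a : E d) (b : E d) (ν : E N) (_ : IsJump u x a b ν), ‖a - b‖ₑ

/-- Normalising constant of the Hausdorff measure. -/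
noncomputable def hc (n : ℕ) : ℝ≥0∞ :=
  volume (ball (0 : E n) 1) / (μH[(n : ℝ)] : Measure (E n)) (ball (0 : E n) 1)

/-- The `n`-dimensional Hausdorff measure on `ℝ^(n+1)`, normalised so that it is Lebesgue measure
on `ℝ^n`. -/
noncomputable def surf (n : ℕ) : Measure (E (n + 1)) := hc n • μH[(n : ℝ)]

/-- `κ_{n+1} = ∫ |z_1|` over the unit sphere of `ℝ^(n+1)`. -/
noncomputable def kappa (n : ℕ) : ℝ≥0∞ :=
  ∫⁻ z : sphere (0 : E (n + 1)) 1, ‖(z : E (n + 1)) 0‖ₑ ∂(volume : Measure (E (n + 1))).toSphere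

/-- total mass of the unit sphere. -/
noncomputable def sig (n : ℕ) : ℝ≥0∞ :=
  (volume : Measure (E (n + 1))).toSphere univ

/-- Gagliardo energy `[v]^q` in `W^{1/q,q}(ℝ^(n+1))`. -/
noncomputable def gag {n d : ℕ} (q : ℝ) (v : E (n + 1) → E d) : ℝ≥0∞ :=
  ∫⁻ x, ∫⁻ y, ‖v x - v y‖ₑ ^ q / ‖x - y‖ₑ ^ (n + 2)

/-- Mollification `u_ε(x) = ∫ η(z) u(x - ε z) dz`. -/
noncomputable def moll {N d : ℕ} (η : E N → ℝ) (u : E N → E d) (ε : ℝ) (x : E N) : E d :=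
  ∫ z, η z • u (x - ε • z)

/-- `∫ |u(y+h) - u(y)|^q dy`. -/
noncomputable def dq {N d : ℕ} (q : ℝ) (u : E N → E d) (h : E N) : ℝ≥0∞ :=
  ∫⁻ y, ‖u (y + h) - u y‖ₑ ^ q

/-- volume of the unit ball of `ℝ^n`. -/
noncomputable def om (n : ℕ) : ℝ := (volume (ball (0 : E n) 1)).toReal

/-- The pure jump function at `x`. -/
noncomputable def st {N d : ℕ} (a b : E d) (ν x y : E N) : E d :=
  if 0 < inner ℝ (y - x) ν then a else b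

/-- `u` is `L¹`-close to the jump function at `x` at all scales `≤ ρ`. -/
def Near {N d : ℕ} (u : E N → E d) (a b : E d) (ν x : E N) (ρ δ : ℝ) : Prop :=
  ∀ r : ℝ, 0 < r → r ≤ ρ →
    ∫⁻ y in ball x r, ‖u y - st a b ν x y‖ₑ ≤ ENNReal.ofReal (δ * ‖a - b‖ * r ^ N)

/-- The same with the radii `1/(k+1)`, `k ≥ m`: a countable condition. -/
def Es {N d : ℕ} (u : E N → E d) (a b : E d) (ν : E N) (m : ℕ) (δ : ℝ) : Set (E N) :=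
  {x | ∀ k : ℕ, m ≤ k → ∫⁻ y in ball x (1 / ((k : ℝ) + 1)), ‖u y - st a b ν x y‖ₑ ≤
    ENNReal.ofReal (δ * ‖a - b‖ * (1 / ((k : ℝ) + 1)) ^ N)}

/-! ## Statements of the jobs -/

/-- JS-1. -/
def S_MEAS : Prop := ∀ (N d : ℕ) (u : E N → E d) (a b : E d) (ν : E N) (m : ℕ) (δ : ℝ),
  AEStronglyMeasurable u volume → MeasurableSet (Es u a b ν m δ)

/-- JS-2: from the countable family of radii to all radii. -/
def S_RAD : Prop := ∀ (N d : ℕ) (u : E N → E d) (a b : E d) (ν x : E N) (m : ℕ) (δ : ℝ),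
  0 ≤ δ → x ∈ Es u a b ν m δ → Near u a b ν x (1 / ((m : ℝ) + 1)) (2 ^ N * δ)

/-- JS-3: cone condition. -/
def S_CONE : Prop := ∀ (n d : ℕ) (u : E (n + 1) → E d) (a b : E d) (ν x x' : E (n + 1))
  (ρ δ σ : ℝ), AEStronglyMeasurable u volume → a ≠ b → ‖ν‖ = 1 → 0 ≤ δ → 0 ≤ σ →
  2 ^ (2 * n + 3) * δ ≤ om (n + 1) * σ ^ (n + 1) →
  Near u a b ν x ρ δ → Near u a b ν x' ρ δ → 2 * ‖x' - x‖ ≤ ρ →
  |inner ℝ (x' - x) ν| ≤ σ * ‖x' - x‖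

/-- JS-4: the normalised Hausdorff measure is Lebesgue measure on `ℝ^n`. -/
def S_HN : Prop := ∀ n : ℕ, hc n • (μH[(n : ℝ)] : Measure (E n)) = volume ∧ hc n ≠ 0 ∧ hc n ≠ ⊤

/-- JS-5: size of sets in narrow cones. -/
def S_HUP : Prop := ∀ (n : ℕ) (K : Set (E (n + 1))) (ν z : E (n + 1)) (σ l r : ℝ),
  ‖ν‖ = 1 → 0 ≤ σ → 0 < l → 1 ≤ l ^ 2 * (1 - σ ^ 2) → 0 < r →
  (∀ x ∈ K, ∀ x' ∈ K, |inner ℝ (x' - x) ν| ≤ σ * ‖x' - x‖) → K ⊆ ball z r →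
  surf n K ≤ ENNReal.ofReal (l ^ n * om n * r ^ n)

/-- JS-6: projection along `ν` and volume of cylinders. -/
def S_PROJ : Prop := ∀ (n : ℕ) (ν : E (n + 1)), ‖ν‖ = 1 → ∃ P : E (n + 1) →ₗ[ℝ] E n,
  (∀ v, ‖P v‖ ^ 2 + (inner ℝ v ν) ^ 2 = ‖v‖ ^ 2) ∧
  ∀ (k : E (n + 1)) (c r : ℝ), 0 ≤ c → 0 < r →
    volume {y : E (n + 1) | -c < inner ℝ (y - k) ν ∧ inner ℝ (y - k) ν ≤ 0 ∧ ‖P (y - k)‖ < r} =
      ENNReal.ofReal (c * (om n * r ^ n))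

/-- JS-7: lower bound in the ball `B_{R|h|}(k)` around a point `k` of the jump set. -/
def S_BLOW : Prop := ∀ (n d : ℕ) (u : E (n + 1) → E d) (a b : E d) (ν k h : E (n + 1))
  (q ρ δ τ R : ℝ), 1 ≤ q → AEStronglyMeasurable u volume → a ≠ b → ‖ν‖ = 1 → 0 ≤ δ →
  0 < τ → τ < 1 → 3 ≤ R → h ≠ 0 → R * ‖h‖ ≤ ρ → Near u a b ν k ρ δ →
  ENNReal.ofReal (((1 - τ) * ‖a - b‖) ^ q * (|inner ℝ h ν| * (om n * ((R - 2) * ‖h‖) ^ n) -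
      4 * δ / τ * (R * ‖h‖) ^ (n + 1))) ≤
    ∫⁻ y in ball k (R * ‖h‖), ‖u (y + h) - u y‖ₑ ^ q

/-- JS-8: Tonelli. -/
def S_MULT : Prop := ∀ (N : ℕ) (μ : Measure (E N)) (r : ℝ) (A : ℝ≥0∞) (f : E N → ℝ≥0∞),
  IsFiniteMeasure μ → AEMeasurable f volume → (∀ x, μ (ball x r) ≤ A) →
  ∫⁻ k, (∫⁻ y in ball k r, f y) ∂μ ≤ A * ∫⁻ y, f y

/-- JS-9: uniform lower bound for small `h` from finitely many compact pieces. -/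
def S_LOC : Prop := ∀ (n d : ℕ) (u : E (n + 1) → E d) (I : ℕ) (K : Fin I → Set (E (n + 1)))
  (a b : Fin I → E d) (ν : Fin I → E (n + 1)) (q ρ δ τ R σ l : ℝ),
  1 ≤ q → AEStronglyMeasurable u volume → (∀ i, a i ≠ b i) → (∀ i, ‖ν i‖ = 1) → 0 < ρ →
  0 ≤ δ → 0 < τ → τ < 1 → 3 ≤ R → 0 ≤ σ → 0 < l → 1 ≤ l ^ 2 * (1 - σ ^ 2) →
  2 ^ (2 * n + 3) * δ ≤ om (n + 1) * σ ^ (n + 1) →
  (∀ i, IsCompact (K i)) → (Pairwise fun i j => Disjoint (K i) (K j)) →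
  (∀ i, ∀ x ∈ K i, Near u (a i) (b i) (ν i) x ρ δ) → (∀ i, surf n (K i) ≠ ⊤) →
  ∃ t0 : ℝ, 0 < t0 ∧ ∀ h : E (n + 1), 0 < ‖h‖ → ‖h‖ < t0 →
    ENNReal.ofReal (∑ i, (surf n (K i)).toReal * (((1 - τ) * ‖a i - b i‖) ^ q *
      (|inner ℝ h (ν i)| * (om n * ((R - 2) * ‖h‖) ^ n) -
        4 * δ / τ * (R * ‖h‖) ^ (n + 1)))) ≤
      ENNReal.ofReal (l ^ n * om n * (R * ‖h‖) ^ n) * dq q u h

/-- JS-10: comparison of the jump sizes. -/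
def S_CMP : Prop := ∀ (n d : ℕ) (u : E (n + 1) → E d) (x : E (n + 1)) (a b a' b' : E d)
  (ν ν' : E (n + 1)) (ρ δ : ℝ), AEStronglyMeasurable u volume → 0 < ρ → 0 ≤ δ → ‖ν'‖ = 1 →
  IsJump u x a b ν → Near u a' b' ν' x ρ δ →
  ‖a - b‖ ≤ (1 + 4 * δ / om (n + 1)) * ‖a' - b'‖

/-- JS-11: countable cover of the jump set. -/
def S_COV : Prop := ∀ (n d : ℕ) (u : E (n + 1) → E d) (δ : ℝ), 0 < δ →
  AEStronglyMeasurable u volume →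
  ∃ (T : Set (E d × E d × E (n + 1) × ℕ)), T.Countable ∧
    (∀ p ∈ T, p.1 ≠ p.2.1 ∧ ‖p.2.2.1‖ = 1) ∧
    jumpSet u ⊆ ⋃ p ∈ T, Es u p.1 p.2.1 p.2.2.1 p.2.2.2 δ

/-- JS-12: selection of finitely many compact pieces. -/
def S_SEL : Prop := ∀ (n d : ℕ) (u : E (n + 1) → E d) (q δ σ l : ℝ) (M : ℝ≥0∞),
  1 ≤ q → AEStronglyMeasurable u volume → 0 < δ → 0 ≤ σ → 0 < l → 1 ≤ l ^ 2 * (1 - σ ^ 2) →
  2 ^ (2 * n + 3) * (2 ^ (n + 1) * δ) ≤ om (n + 1) * σ ^ (n + 1) →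
  M < ∫⁻ x in jumpSet u, jumpSize u x ^ q ∂surf n →
  ∃ (I : ℕ) (K : Fin I → Set (E (n + 1))) (a b : Fin I → E d) (ν : Fin I → E (n + 1)) (ρ : ℝ),
    0 < ρ ∧ (∀ i, a i ≠ b i) ∧ (∀ i, ‖ν i‖ = 1) ∧ (∀ i, IsCompact (K i)) ∧
    (Pairwise fun i j => Disjoint (K i) (K j)) ∧
    (∀ i, ∀ x ∈ K i, Near u (a i) (b i) (ν i) x ρ (2 ^ (n + 1) * δ)) ∧
    (∀ i, surf n (K i) ≠ ⊤) ∧
    M ≤ ∑ i, ENNReal.ofReal (((1 + 4 * (2 ^ (n + 1) * δ) / om (n + 1)) * ‖a i - b i‖) ^ q) *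
      surf n (K i)

/-- JS-13: mollification. -/
def S_MOL : Prop := ∀ (n d : ℕ) (u : E (n + 1) → E d) (η : E (n + 1) → ℝ) (q s e : ℝ) (C : ℝ≥0),
  1 ≤ q → MemLp u (ENNReal.ofReal q) volume → (∀ h, h ≠ 0 → dq q u h ≤ C * ‖h‖ₑ) →
  Integrable η volume → 0 < s → s < 1 → 0 < e →
  ∃ K : ℝ, 0 < K ∧ ∀ (ε : ℝ) (h : E (n + 1)), 0 < ε → K * ε ≤ ‖h‖ →
    ENNReal.ofReal ((1 - s) ^ q * |∫ z, η z| ^ q) * dq q u h ≤
      dq q (moll η u ε) h + ENNReal.ofReal e * ‖h‖ₑ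

/-- JS-14: measurability of the mollification. -/
def S_MM : Prop := ∀ (N d : ℕ) (u : E N → E d) (η : E N → ℝ) (ε : ℝ),
  AEStronglyMeasurable u volume → Integrable η volume → 0 < ε →
  AEStronglyMeasurable (moll η u ε) volume

/-- JS-15: the Gagliardo energy through translations. -/
def S_GAG : Prop := ∀ (n d : ℕ) (q : ℝ) (v : E (n + 1) → E d), 1 ≤ q →
  AEStronglyMeasurable v volume → gag q v = ∫⁻ h, dq q v h / ‖h‖ₑ ^ (n + 2)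

/-- JS-16: integrals over shells. -/
def S_SHELL : Prop := ∀ (n : ℕ) (ν : E (n + 1)) (r₁ r₂ : ℝ), ‖ν‖ = 1 → 0 < r₁ → r₁ < r₂ →
  (∫⁻ h in {h : E (n + 1) | r₁ < ‖h‖ ∧ ‖h‖ < r₂}, ENNReal.ofReal |inner ℝ h ν| / ‖h‖ₑ ^ (n + 2) =
    kappa n * ENNReal.ofReal (Real.log (r₂ / r₁))) ∧
  (∫⁻ h in {h : E (n + 1) | r₁ < ‖h‖ ∧ ‖h‖ < r₂}, ‖h‖ₑ / ‖h‖ₑ ^ (n + 2) =
    sig n * ENNReal.ofReal (Real.log (r₂ / r₁))) ∧ kappa n ≠ ⊤ ∧ sig n ≠ ⊤ ∧ kappa n ≠ 0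

/-- JS-17: logarithmic lower limit from a uniform lower bound near zero. -/
def S_LOG : Prop := ∀ (n d : ℕ) (u : E (n + 1) → E d) (η : E (n + 1) → ℝ) (q t0 B e s K : ℝ)
  (I : ℕ) (A : Fin I → ℝ) (ν : Fin I → E (n + 1)),
  1 ≤ q → AEStronglyMeasurable u volume → Integrable η volume → 0 < t0 → 0 < K →
  (∀ i, ‖ν i‖ = 1) → (∀ i, 0 ≤ A i) → 0 ≤ B → 0 ≤ e → 0 < s → s < 1 →
  (∀ h : E (n + 1), 0 < ‖h‖ → ‖h‖ < t0 →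
    ENNReal.ofReal (∑ i, A i * |inner ℝ h (ν i)| - B * ‖h‖) ≤ dq q u h) →
  (∀ (ε : ℝ) (h : E (n + 1)), 0 < ε → K * ε ≤ ‖h‖ →
    ENNReal.ofReal ((1 - s) ^ q * |∫ z, η z| ^ q) * dq q u h ≤
      dq q (moll η u ε) h + ENNReal.ofReal e * ‖h‖ₑ) →
  ENNReal.ofReal ((1 - s) ^ q * |∫ z, η z| ^ q) * (kappa n * ENNReal.ofReal (∑ i, A i)) ≤
    liminf (fun ε : ℝ => gag q (moll η u ε) / ENNReal.ofReal |Real.log ε|) (𝓝[>] 0) +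
      sig n * ENNReal.ofReal (e + (1 - s) ^ q * |∫ z, η z| ^ q * B)

/-- The goal. -/
def S_MAIN : Prop := ∀ (n d : ℕ) (q : ℝ) (u : E (n + 1) → E d) (η : E (n + 1) → ℝ),
  1 ≤ q → MemLp u (ENNReal.ofReal q) volume → (∃ C : ℝ≥0, ∀ h, h ≠ 0 → dq q u h ≤ C * ‖h‖ₑ) →
  Integrable η volume →
  ENNReal.ofReal (|∫ z, η z| ^ q) * kappa n * ∫⁻ x in jumpSet u, jumpSize u x ^ q ∂surf n ≤
    liminf (fun ε : ℝ => gag q (moll η u ε) / ENNReal.ofReal |Real.log ε|) (𝓝[>] 0)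

end Pool.Agent.Q61.JS
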