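import Pool.Agent.Q61.JS.Stm
import Pool.Agent.Q264.JS.Cov
import Pool.Agent.Q90.JS.Cmp
import Pool.Agent.Q61.JS.Main

namespace Pool.Agent.Q61.JS

open MeasureTheory Filter Topology Set Metric
open scoped ENNReal NNReal

/-- At a jump point `u` is close to the jump function at all small scales. -/
lemma near_of_jump {n d : ℕ} {u : E (n + 1) → E d} {x : E (n + 1)} {a b : E d} {ν : E (n + 1)}
    (hj : IsJump u x a b ν) {δ : ℝ} (hδ : 0 < δ) : ∃ ρ, 0 < ρ ∧ Near u a b ν x ρ δ := by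
  obtain ⟨hab, hν, h1, h2⟩ := hj
  have hp : 0 < ‖a - b‖ := norm_pos_iff.2 (sub_ne_zero.2 hab)
  have h3 := h1.add h2
  rw [add_zero] at h3
  have hc : (0 : ℝ≥0∞) < ENNReal.ofReal (δ * ‖a - b‖) := ENNReal.ofReal_pos.2 (by positivity)
  have h4 := h3.eventually (gt_mem_nhds hc)
  rw [eventually_nhdsWithin_iff, Metric.eventually_nhds_iff] at h4
  obtain ⟨ρ, hρ, h5⟩ := h4
  refine ⟨ρ / 2, by positivity, fun r hr hr2 => ?_⟩
  have h6 := h5 (y := r) (by rw [Real.dist_eq, sub_zero, abs_of_pos hr]; linarith) hr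
  refine (Pool.Agent.Q264.JS.int_st u a b ν x hν r).trans ?_
  have hrp : 0 < r ^ (n + 1) := by positivity
  have hr0 : ENNReal.ofReal (r ^ (n + 1)) ≠ 0 := (ENNReal.ofReal_pos.2 hrp).ne'
  rw [← ENNReal.add_div, ENNReal.div_lt_iff (Or.inl hr0) (Or.inl ENNReal.ofReal_ne_top)] at h6
  rw [ENNReal.ofReal_mul (by positivity)]
  exact h6.le

lemma jump_le {n d : ℕ} {u : E (n + 1) → E d} (hu : AEStronglyMeasurable u volume)
    {x : E (n + 1)} {a b a' b' : E d} {ν ν' : E (n + 1)}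
    (h : IsJump u x a b ν) (h' : IsJump u x a' b' ν') : ‖a - b‖ ≤ ‖a' - b'‖ := by
  have key : ∀ δ ∈ Ioo (0:ℝ) 1, ‖a - b‖ ≤ (1 + 4 * δ / om (n + 1)) * ‖a' - b'‖ := by
    intro δ hδ
    obtain ⟨ρ, hρ, hn⟩ := near_of_jump h' hδ.1
    exact Pool.Agent.Q90.JS.t_CMP n d u x a b a' b' ν ν' ρ δ hu hρ hδ.1.le h'.2.1 h hn
  have h1 : Tendsto (fun δ : ℝ => (1 + 4 * δ / om (n + 1)) * ‖a' - b'‖) (𝓝[>] 0)
      (𝓝 ((1 + 4 * 0 / om (n + 1)) * ‖a' - b'‖)) := by
    apply Tendsto.mono_left _ nhdsWithin_le_nhds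
    have : Continuous (fun δ : ℝ => (1 + 4 * δ / om (n + 1)) * ‖a' - b'‖) := by fun_prop
    exact this.tendsto 0
  have h2 := ge_of_tendsto h1 (by
    filter_upwards [Ioo_mem_nhdsGT (one_pos : (0:ℝ) < 1)] with δ hδ using key δ hδ)
  simpa using h2

/-- The jump size is well defined. -/
theorem jumpSize_eq {n d : ℕ} {u : E (n + 1) → E d} (hu : AEStronglyMeasurable u volume)
    {x : E (n + 1)} {a b : E d} {ν : E (n + 1)} (h : IsJump u x a b ν) :
    jumpSize u x = ‖a - b‖ₑ := by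
  apply le_antisymm
  · unfold jumpSize
    refine iSup_le fun a' => iSup_le fun b' => iSup_le fun ν' => iSup_le fun h' => ?_
    rw [← ofReal_norm_eq_enorm, ← ofReal_norm_eq_enorm]
    exact ENNReal.ofReal_le_ofReal (jump_le hu h' h)
  · unfold jumpSize
    exact le_iSup_of_le a (le_iSup_of_le b (le_iSup_of_le ν (le_iSup_of_le h le_rfl)))

end Pool.Agent.Q61.JS
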